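import Pool.Agent.helper88.T8.Spec
import Pool.Agent.helper88.T7.Prop8

set_option autoImplicit false

/-!
# T8 (MP_16912e_nt): the final statement for functions of the discriminant
-/

namespace Pool.Agent.T8

open Finset NumberField Pool.Agent.helper3.FT Pool.Agent.helper47.RA Pool.Agent.T5 Pool.Agent.T6 Pool.Agent.T7
open scoped nonZeroDivisors

open Classical in
/-- the clean asymptotic; at `Y = κ √N` the classes are a positive proportion of all classes of order 5, and the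
number of all classes of order 5 is at least `r N` -/
def CLN8_stmt : Prop := ∀ ε : ℝ, 0 < ε → ∃ κ r N₀ : ℝ, 0 < κ ∧ 0 < r ∧ ∀ h : ℤ → ℝ → ℕ,
  (∀ (K : Type) [Field K] [NumberField K], Module.finrank ℚ K = 2 → ∀ Y : ℝ, h (NumberField.discr K) Y = (CLS K Y).ncard) →
  (∀ N Y : ℝ, N₀ ≤ N → N ^ (2 / 5 : ℝ) ≤ Y → Y ≤ κ * √N →
    |∑ D ∈ (Icc (-⌊N⌋) (-1)).filter IsFund, (h D Y : ℝ) - 36 / Real.pi ^ 3 * (Y * √N)| ≤ ε * (Y * √N)) ∧
  ∀ f : ℤ → ℕ, (∀ (K : Type) [Field K] [NumberField K], Module.finrank ℚ K = 2 →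
      f (NumberField.discr K) = Nat.card {x : ClassGroup (𝓞 K) // x ^ 5 = 1}) →
    ∀ N : ℝ, N₀ ≤ N →
      r * ∑ D ∈ (Icc (-⌊N⌋) (-1)).filter IsFund, ((f D : ℝ) - 1) ≤
        ∑ D ∈ (Icc (-⌊N⌋) (-1)).filter IsFund, (h D (κ * √N) : ℝ) ∧
      r * N ≤ ∑ D ∈ (Icc (-⌊N⌋) (-1)).filter IsFund, ((f D : ℝ) - 1)

open Classical in
theorem Fin8_le (h : ℤ → ℝ → ℕ)
    (hh : ∀ (K : Type) [Field K] [NumberField K], Module.finrank ℚ K = 2 → ∀ Y : ℝ, h (NumberField.discr K) Y = (CLS K Y).ncard)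
    (f : ℤ → ℕ) (hf : ∀ (K : Type) [Field K] [NumberField K], Module.finrank ℚ K = 2 →
      f (NumberField.discr K) = Nat.card {x : ClassGroup (𝓞 K) // x ^ 5 = 1}) (N Y : ℝ) :
    ∑ D ∈ (Icc (-⌊N⌋) (-1)).filter IsFund, (h D Y : ℝ) ≤ ∑ D ∈ (Icc (-⌊N⌋) (-1)).filter IsFund, ((f D : ℝ) - 1) := by
  refine Finset.sum_le_sum fun D hD => ?_
  rw [Finset.mem_filter, Finset.mem_Icc] at hD
  have hD0 : D < 0 := by omega
  have hne : Nonempty (Fld D) := SFA.2.2 D hD.2 hD0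
  have f1 := hh hne.some.K hne.some.fin Y
  have f2 := hf hne.some.K hne.some.fin
  rw [hne.some.dK] at f1 f2
  rw [f1, f2]
  exact EXC7_card Y

theorem CLN8_of (hU : UB_stmt) (h1 : FN8_stmt) : CLN8_stmt := by
  classical
  obtain ⟨C, hC, hU⟩ := hU
  intro ε hε
  obtain ⟨κ, N₀, hκ, h3⟩ := h1 (min ε 1) (lt_min hε one_pos)
  obtain ⟨N₁, hN₁, h4⟩ := APR7_large κ hκ
  obtain ⟨r, hr, hr1, hr2⟩ : ∃ r : ℝ, 0 < r ∧ r ≤ κ / 10 ∧ r * (2 * C) ≤ κ / 10 := by
    refine ⟨κ / (20 * (C + 1)), by positivity, ?_, ?_⟩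
    · exact div_le_div_of_nonneg_left hκ.le (by norm_num) (by linarith)
    · have e9 : κ / (20 * (C + 1)) * (2 * C) = κ / 10 * (C / (C + 1)) := by
        field_simp
        ring
      rw [e9]
      have e10 : C / (C + 1) ≤ 1 := (div_le_one (by linarith)).mpr (by linarith)
      exact mul_le_of_le_one_right (by positivity) e10
  refine ⟨κ, r, max N₀ N₁, hκ, hr, fun h hh => ⟨fun N Y hN hY hY' => ?_, fun f hf N hN => ?_⟩⟩
  · have hN' : N₁ ≤ N := (le_max_right _ _).trans hN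
    have hN1 : (1 : ℝ) ≤ N := hN₁.trans hN'
    have hY0 : 0 ≤ Y := (Real.rpow_nonneg (by linarith) _).trans hY
    have e := Fin7_sum (fun K _ _ => CLS K Y) (fun D => h D Y) (fun K _ _ k => hh K k Y) N
    rw [e]
    exact (h3 N Y ((le_max_left _ _).trans hN) hY hY').trans
      (mul_le_mul_of_nonneg_right (min_le_left _ _) (mul_nonneg hY0 (Real.sqrt_nonneg _)))
  · have hN' : N₁ ≤ N := (le_max_right _ _).trans hN
    have hN1 : (1 : ℝ) ≤ N := hN₁.trans hN'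
    have e0 := Fin7_sum (fun K _ _ => CLS K (κ * √N)) (fun D => h D (κ * √N)) (fun K _ _ k => hh K k (κ * √N)) N
    have e1 := (abs_le.mp (h3 N (κ * √N) ((le_max_left _ _).trans hN) (h4 N hN') le_rfl)).1
    have e2 : κ * √N * √N = κ * N := by rw [mul_assoc, Real.mul_self_sqrt (by linarith)]
    rw [e2] at e1
    have e3 : min ε 1 * (κ * N) ≤ 1 * (κ * N) := mul_le_mul_of_nonneg_right (min_le_right _ _) (by positivity)
    have hpi := APR7_pi
    have e4 : 11 / 10 * (κ * N) ≤ 36 / Real.pi ^ 3 * (κ * N) := mul_le_mul_of_nonneg_right hpi.le (by positivity)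
    have e5 : κ * N / 10 ≤ ∑ D ∈ (Icc (-⌊N⌋) (-1)).filter IsFund, (h D (κ * √N) : ℝ) := by
      rw [e0]
      have e6 : TT7 (fC (κ * √N)) N = TT7 (fun _ E => ((CLS E.K (κ * √N)).ncard : ℝ)) N := rfl
      rw [e6] at e1
      linarith
    have e6 : ∑ D ∈ (Icc (-⌊N⌋) (-1)).filter IsFund, (f D : ℝ) ≤ C * ((⌊N⌋₊ + 1 : ℕ) : ℝ) := by
      refine hU f hf _ _ fun D hD => ?_
      rw [Finset.mem_filter, Finset.mem_Icc] at hD
      have h5 : (⌊N⌋₊ : ℤ) = ⌊N⌋ := Int.natCast_floor_eq_floor (by linarith)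
      refine ⟨hD.2, by omega, ?_⟩
      rw [abs_of_neg (by omega)]
      push_cast
      omega
    have e7 : ((⌊N⌋₊ + 1 : ℕ) : ℝ) ≤ 2 * N := by
      have := Nat.floor_le (by linarith : (0 : ℝ) ≤ N)
      push_cast
      linarith
    have e8 : ∑ D ∈ (Icc (-⌊N⌋) (-1)).filter IsFund, ((f D : ℝ) - 1) ≤ C * (2 * N) :=
      (Finset.sum_le_sum fun D _ => by linarith).trans (e6.trans (mul_le_mul_of_nonneg_left e7 hC))
    refine ⟨?_, ?_⟩
    · refine le_trans (mul_le_mul_of_nonneg_left e8 hr.le) (le_trans ?_ e5)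
      calc r * (C * (2 * N)) = r * (2 * C) * N := by ring
        _ ≤ κ / 10 * N := mul_le_mul_of_nonneg_right hr2 (by linarith)
        _ = κ * N / 10 := by ring
    · refine le_trans ?_ (e5.trans (Fin8_le h hh f hf N _))
      calc r * N ≤ κ / 10 * N := mul_le_mul_of_nonneg_right hr1 (by linarith)
        _ = κ * N / 10 := by ring

end Pool.Agent.T8
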