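import Pool.Agent.helper88.T8.Spec

set_option autoImplicit false

/-! Row t8:GM8 (MP_16912e_nt): a geometric sum. -/

namespace Pool.Agent.T8

open Finset NumberField Pool.Agent.helper3.FT Pool.Agent.helper47.RA Pool.Agent.T5 Pool.Agent.T6 Pool.Agent.T7
open scoped nonZeroDivisors

theorem GM8 : GM8_stmt := by
  intro c hc
  have hr0 : (0 : ℝ) < (1 / 2 : ℝ) ^ c := Real.rpow_pos_of_pos (by norm_num) _
  have hr1 : (1 / 2 : ℝ) ^ c < 1 := Real.rpow_lt_one (by norm_num) (by norm_num) hc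
  refine ⟨(1 - (1 / 2 : ℝ) ^ c)⁻¹, ?_, ?_⟩
  · rw [one_le_inv₀ (by linarith)]
    linarith
  intro x I hx hI
  have hinv : 0 ≤ (1 - (1 / 2 : ℝ) ^ c)⁻¹ := inv_nonneg.mpr (by linarith)
  rcases I.eq_empty_or_nonempty with h0 | h0
  · rw [h0, Finset.sum_empty]
    exact hinv
  set m := I.max' h0 with hm
  have hmI : m ∈ I := I.max'_mem h0
  have hmx := hI m hmI
  have hsub : I ⊆ range (m + 1) := by
    intro i hi
    rw [Finset.mem_range]
    have := I.le_max' i hi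
    omega
  have hpow : ∀ i : ℕ, i ≤ m → ((2 : ℝ) ^ i * x) ^ c ≤ ((1 / 2 : ℝ) ^ c) ^ (m - i) := by
    intro i hi
    have e1 : (2 : ℝ) ^ i * x ≤ (1 / 2 : ℝ) ^ (m - i) := by
      have e2 : (2 : ℝ) ^ m = 2 ^ i * 2 ^ (m - i) := by
        rw [← pow_add]
        congr 1
        omega
      rw [e2] at hmx
      have h2 : (0 : ℝ) < 2 ^ (m - i) := by positivity
      rw [one_div, inv_pow, ← one_div, le_div_iff₀ h2]
      calc (2 : ℝ) ^ i * x * 2 ^ (m - i) = 2 ^ i * 2 ^ (m - i) * x := by ring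
        _ ≤ 1 := hmx
    calc ((2 : ℝ) ^ i * x) ^ c ≤ ((1 / 2 : ℝ) ^ (m - i)) ^ c :=
          Real.rpow_le_rpow (by positivity) e1 hc.le
      _ = ((1 / 2 : ℝ) ^ c) ^ (m - i) := by
          rw [← Real.rpow_natCast, ← Real.rpow_natCast, ← Real.rpow_mul (by norm_num), ← Real.rpow_mul (by norm_num),
            mul_comm]
  calc ∑ i ∈ I, ((2 : ℝ) ^ i * x) ^ c ≤ ∑ i ∈ range (m + 1), ((2 : ℝ) ^ i * x) ^ c :=
        Finset.sum_le_sum_of_subset_of_nonneg hsub fun i _ _ => Real.rpow_nonneg (by positivity) _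
    _ ≤ ∑ i ∈ range (m + 1), ((1 / 2 : ℝ) ^ c) ^ (m - i) := by
        refine Finset.sum_le_sum fun i hi => hpow i ?_
        rw [Finset.mem_range] at hi
        omega
    _ = ∑ i ∈ range (m + 1), ((1 / 2 : ℝ) ^ c) ^ i := by
        rw [← Finset.sum_range_reflect]
        refine Finset.sum_congr rfl fun i hi => ?_
        rw [Finset.mem_range] at hi
        congr 1
        omega
    _ ≤ ∑' i : ℕ, ((1 / 2 : ℝ) ^ c) ^ i :=
        (summable_geometric_of_lt_one hr0.le hr1).sum_le_tsum _ fun i _ => pow_nonneg hr0.le i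
    _ = (1 - (1 / 2 : ℝ) ^ c)⁻¹ := tsum_geometric_of_lt_one hr0.le hr1

end Pool.Agent.T8
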