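import Pool.Agent.helper88.T8.Spec

set_option autoImplicit false

/-! Row t8:HI8 (MP_16912e_nt): the new bound. -/

namespace Pool.Agent.T8

open Finset NumberField Pool.Agent.helper3.FT Pool.Agent.helper47.RA Pool.Agent.T5 Pool.Agent.T6 Pool.Agent.T7
open scoped nonZeroDivisors

theorem HI8 (hAC8 : AC8_stmt) (hRN8 : RN8_stmt) (hHJ8 : HJ8_stmt) : HI8_stmt := by
  intro κ A hκ hκ1 hA
  obtain ⟨C₁, hC₁, h1⟩ := hRN8 κ A hκ hκ1 hA
  obtain ⟨C₂, N₂, hC₂, hN₂, h2⟩ := hHJ8 κ A hκ hκ1 hA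
  refine ⟨C₂ + 2 * C₁, max N₂ 10, by linarith, hN₂.trans (le_max_left _ _), ?_⟩
  intro N Y hN hY hYA
  rw [max_le_iff] at hN
  obtain ⟨m1, m2⟩ := hN
  have hN1 : 1 ≤ N := by linarith
  have hY1 : 1 ≤ Y := (Real.one_le_rpow hN1 (by norm_num)).trans hY
  have g1 := h1 N Y m2 hY1 hYA
  have g2 := h2 N Y m1 hY hYA
  have g3 : TD7 (fN8 κ Y) N ≤ TD7 (fG8 κ Y) N + 2 * TD7 (fR8 κ Y) N := by
    unfold TD7
    rw [Finset.mul_sum, ← Finset.sum_add_distrib]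
    refine Finset.sum_le_sum fun D hD => ?_
    obtain ⟨E, e1, e2, e3, e4, e5, e6, e7, e8⟩ := ZL_fld N D hD
    rw [e1, e1, e1]
    have hD4 : E.Q.D < -4 := by
      rw [e4]
      have : (D : ℝ) < ((-4 : ℤ) : ℝ) := by
        push_cast
        linarith
      exact_mod_cast this
    obtain ⟨-, -, k⟩ := hAC8 E.K E.Q E.fin hD4 κ Y hκ (by linarith)
    show ((NN8 E.K κ Y).ncard : ℝ) ≤ ((GP8 E.Q κ Y).ncard : ℝ) + 2 * ((RI8 E.K κ Y).ncard : ℝ)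
    exact_mod_cast k
  have g4 : N ^ (0.8 : ℝ) ≤ Y ^ 2 := by
    calc N ^ (0.8 : ℝ) ≤ N ^ (0.49 * 2 : ℝ) := Real.rpow_le_rpow_of_exponent_le hN1 (by norm_num)
      _ = (N ^ (0.49 : ℝ)) ^ 2 := by
          rw [Real.rpow_mul (by linarith)]
          norm_cast
      _ ≤ Y ^ 2 := pow_le_pow_left₀ (Real.rpow_nonneg (by linarith) _) hY 2
  have g5 : C₁ * N ^ (0.8 : ℝ) ≤ C₁ * Y ^ 2 := mul_le_mul_of_nonneg_left g4 (by linarith)
  linarith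

end Pool.Agent.T8
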