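import Pool.Agent.helper88.T8.Spec

set_option autoImplicit false

/-! Row t8:NA8 (MP_16912e_nt): the choice of `L, T, ρ` in one block. -/

namespace Pool.Agent.T8

open Finset NumberField Pool.Agent.helper3.FT Pool.Agent.helper47.RA Pool.Agent.T5 Pool.Agent.T6 Pool.Agent.T7
open scoped nonZeroDivisors

theorem NA8_core (n k R S s C₁ μ : ℝ) (hn : 1 ≤ n) (hk : 1 ≤ k) (hkn : k ≤ 2 * n) (hR : 1 ≤ R) (hS : 1 ≤ S)
    (hs : 0 < s) (hC₁ : 1 ≤ C₁) (hμ0 : 0 < μ) (hμ1 : μ ≤ 1) (hbig : 4 * (R * S) ≤ μ * n * s) :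
    ∃ (L T : ℕ) (ρ : ℝ), 1 ≤ L ∧ 1 ≤ T ∧ 0 ≤ ρ ∧
      C₁ * μ * ((n + k) * s) + 3 * (R * S) ≤ R * S * (L : ℝ) ∧
      (T = 1 ∨ (64 * T * (μ * s ^ 2) ≤ n ^ 3 * k * S * R ^ 2 ∧
        32 * ((T : ℝ) * S) * L / n ^ 3 + 2 * n ^ 2 * k / L + k ^ 3 / L ≤ ρ ∧
        4 * n / k * (32 * ((T : ℝ) * S) * L / n ^ 3 + 2 * n ^ 2 * k / L + k ^ 3 / L) + 5 * n ^ 3 / L ≤ ρ)) ∧
      (L : ℝ) * (R * S) ≤ (8 * C₁ + 29) * (μ * n * s) ∧
      1 / (T : ℝ) ≤ 128 * (μ * s ^ 2) / (n ^ 3 * k * S * R ^ 2) ∧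
      (T = 1 ∧ ρ = 0 ∨ (64 * T * (μ * s ^ 2) ≤ n ^ 3 * k * S * R ^ 2 ∧ ρ ≤ (8 * C₁ + 29) * (n ^ 2 * (R * S) / (μ * s)))) := by
  have hn0 : 0 < n := by linarith
  have hk0 : 0 < k := by linarith
  have hR0 : 0 < R := by linarith
  have hS0 : 0 < S := by linarith
  have hC0 : 0 < C₁ := by linarith
  have hE0 : 0 < R * S := by positivity
  set E := R * S with hE
  set L : ℕ := ⌈C₁ * μ * ((n + k) * s) / E⌉₊ + 3 with hLd
  have hL3 : (3 : ℝ) ≤ L := by
    rw [hLd]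
    push_cast
    have : (0 : ℝ) ≤ (⌈C₁ * μ * ((n + k) * s) / E⌉₊ : ℝ) := Nat.cast_nonneg _
    linarith
  have hL0 : (0 : ℝ) < L := by linarith
  have hLlow : C₁ * μ * ((n + k) * s) + 3 * E ≤ E * (L : ℝ) := by
    rw [hLd]
    push_cast
    have h1 := Nat.le_ceil (C₁ * μ * ((n + k) * s) / E)
    have h2 : C₁ * μ * ((n + k) * s) = E * (C₁ * μ * ((n + k) * s) / E) := by field_simp
    calc C₁ * μ * ((n + k) * s) + 3 * E = E * (C₁ * μ * ((n + k) * s) / E) + 3 * E := by rw [← h2]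
      _ ≤ E * (⌈C₁ * μ * ((n + k) * s) / E⌉₊ : ℝ) + 3 * E := by
          have := mul_le_mul_of_nonneg_left h1 hE0.le
          linarith
      _ = E * ((⌈C₁ * μ * ((n + k) * s) / E⌉₊ : ℝ) + 3) := by ring
  have hC1μ : μ * n * s ≤ C₁ * (μ * n * s) := le_mul_of_one_le_left (by positivity) hC₁
  have hLup : (L : ℝ) * E ≤ 4 * C₁ * (μ * n * s) := by
    have h0 : 0 ≤ C₁ * μ * ((n + k) * s) / E := by positivity
    have h1 : (⌈C₁ * μ * ((n + k) * s) / E⌉₊ : ℝ) ≤ C₁ * μ * ((n + k) * s) / E + 1 := (Nat.ceil_lt_add_one h0).le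
    have h2 : C₁ * μ * ((n + k) * s) / E * E = C₁ * μ * ((n + k) * s) := by field_simp
    rw [hLd]
    push_cast
    calc ((⌈C₁ * μ * ((n + k) * s) / E⌉₊ : ℝ) + 3) * E ≤ (C₁ * μ * ((n + k) * s) / E + 1 + 3) * E := by
          apply mul_le_mul_of_nonneg_right _ hE0.le
          linarith
      _ = C₁ * μ * ((n + k) * s) + 4 * E := by rw [add_assoc, add_mul, h2]; norm_num
      _ ≤ C₁ * μ * ((n + 2 * n) * s) + C₁ * (μ * n * s) := by
          apply add_le_add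
          · apply mul_le_mul_of_nonneg_left _ (by positivity)
            apply mul_le_mul_of_nonneg_right _ hs.le
            linarith
          · linarith
      _ = 4 * C₁ * (μ * n * s) := by ring
  have hLμ : μ * n * s ≤ L * E := by
    have h3 : C₁ * (μ * n * s) ≤ C₁ * μ * ((n + k) * s) := by
      calc C₁ * (μ * n * s) = C₁ * μ * (n * s) := by ring
        _ ≤ C₁ * μ * ((n + k) * s) := by
          apply mul_le_mul_of_nonneg_left _ (by positivity)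
          apply mul_le_mul_of_nonneg_right _ hs.le
          linarith
    have h4 : E * (L : ℝ) = L * E := by ring
    linarith
  have hLup2 : (L : ℝ) * E ≤ (8 * C₁ + 29) * (μ * n * s) := by
    refine hLup.trans (mul_le_mul_of_nonneg_right (by linarith) (by positivity))
  have hL1 : 1 ≤ L := by
    rw [hLd]
    omega
  set Q := n ^ 3 * k * S * R ^ 2 with hQ
  have hQ0 : 0 < Q := by positivity
  rcases lt_or_ge Q (128 * (μ * s ^ 2)) with hq | hq
  · refine ⟨L, 1, 0, hL1, le_rfl, le_rfl, hLlow, Or.inl rfl, hLup2, ?_, Or.inl ⟨rfl, rfl⟩⟩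
    rw [Nat.cast_one, div_one, le_div_iff₀ hQ0]
    linarith
  · have hx2 : 2 ≤ Q / (64 * (μ * s ^ 2)) := by
      rw [le_div_iff₀ (by positivity)]
      linarith
    set x := Q / (64 * (μ * s ^ 2)) with hx
    have hT1 : ((⌊x⌋₊ : ℕ) : ℝ) ≤ x := Nat.floor_le (by linarith)
    have hT2 : x / 2 ≤ (⌊x⌋₊ : ℝ) := by
      have := Nat.lt_floor_add_one x
      linarith
    have hT3 : 1 ≤ ⌊x⌋₊ := by
      rw [Nat.one_le_floor_iff]
      linarith
    have hxe : x * (64 * (μ * s ^ 2)) = Q := by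
      rw [hx]
      field_simp
    set T : ℕ := ⌊x⌋₊ with hT
    have hTq : 64 * (T : ℝ) * (μ * s ^ 2) ≤ Q := by
      calc 64 * (T : ℝ) * (μ * s ^ 2) = T * (64 * (μ * s ^ 2)) := by ring
        _ ≤ x * (64 * (μ * s ^ 2)) := mul_le_mul_of_nonneg_right hT1 (by positivity)
        _ = Q := hxe
    have hT0 : (0 : ℝ) < T := by
      have : (1 : ℝ) ≤ T := by exact_mod_cast hT3
      linarith
    have hU : 0 < E / (μ * s) := by positivity
    have b1 : 32 * ((T : ℝ) * S) * L / n ^ 3 ≤ 2 * C₁ * (n * k) * (E / (μ * s)) := by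
      have c1 : (T : ℝ) * (L * E) ≤ x * (4 * C₁ * (μ * n * s)) := mul_le_mul hT1 hLup (by positivity) (by linarith)
      have c2 : 32 * ((T : ℝ) * S) * L / n ^ 3 = (T * (L * E)) * (32 / (R * n ^ 3)) := by
        rw [hE]
        field_simp
      rw [c2]
      calc (T * (L * E)) * (32 / (R * n ^ 3)) ≤ (x * (4 * C₁ * (μ * n * s))) * (32 / (R * n ^ 3)) :=
            mul_le_mul_of_nonneg_right c1 (by positivity)
        _ = 2 * C₁ * (n * k) * (E / s) := by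
            rw [hx, hQ, hE]
            field_simp
            norm_num
        _ ≤ 2 * C₁ * (n * k) * (E / (μ * s)) := by
            apply mul_le_mul_of_nonneg_left _ (by positivity)
            apply div_le_div_of_nonneg_left hE0.le (by positivity)
            exact mul_le_of_le_one_left hs.le hμ1
    have hLinv : 1 / (L : ℝ) ≤ E / (μ * s) * (1 / n) := by
      rw [div_mul_div_comm, div_le_div_iff₀ hL0 (by positivity)]
      linarith
    have b2 : 2 * n ^ 2 * k / L ≤ 2 * (n * k) * (E / (μ * s)) := by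
      calc 2 * n ^ 2 * k / L = 2 * n ^ 2 * k * (1 / L) := by ring
        _ ≤ 2 * n ^ 2 * k * (E / (μ * s) * (1 / n)) := mul_le_mul_of_nonneg_left hLinv (by positivity)
        _ = 2 * (n * k) * (E / (μ * s)) := by field_simp
    have b3 : k ^ 3 / L ≤ 4 * (n * k) * (E / (μ * s)) := by
      calc k ^ 3 / L = k ^ 3 * (1 / L) := by ring
        _ ≤ k ^ 3 * (E / (μ * s) * (1 / n)) := mul_le_mul_of_nonneg_left hLinv (by positivity)
        _ = k * (k ^ 2 / n) * (E / (μ * s)) := by field_simp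
        _ ≤ k * (4 * n) * (E / (μ * s)) := by
            apply mul_le_mul_of_nonneg_right _ hU.le
            apply mul_le_mul_of_nonneg_left _ hk0.le
            rw [div_le_iff₀ hn0]
            nlinarith
        _ = 4 * (n * k) * (E / (μ * s)) := by ring
    have b4 : 5 * n ^ 3 / L ≤ 5 * n ^ 2 * (E / (μ * s)) := by
      calc 5 * n ^ 3 / L = 5 * n ^ 3 * (1 / L) := by ring
        _ ≤ 5 * n ^ 3 * (E / (μ * s) * (1 / n)) := mul_le_mul_of_nonneg_left hLinv (by positivity)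
        _ = 5 * n ^ 2 * (E / (μ * s)) := by field_simp
    have bW : 32 * ((T : ℝ) * S) * L / n ^ 3 + 2 * n ^ 2 * k / L + k ^ 3 / L ≤ (2 * C₁ + 6) * (n * k) * (E / (μ * s)) := by
      have : (2 * C₁ + 6) * (n * k) * (E / (μ * s)) = 2 * C₁ * (n * k) * (E / (μ * s)) + 2 * (n * k) * (E / (μ * s)) +
          4 * (n * k) * (E / (μ * s)) := by ring
      rw [this]
      linarith
    have hρe : (8 * C₁ + 29) * (n ^ 2 * E / (μ * s)) = (8 * C₁ + 29) * n ^ 2 * (E / (μ * s)) := by ring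
    refine ⟨L, T, (8 * C₁ + 29) * (n ^ 2 * E / (μ * s)), hL1, hT3, by positivity, hLlow, Or.inr ⟨hTq, ?_, ?_⟩, hLup2, ?_,
      Or.inr ⟨hTq, le_rfl⟩⟩
    · rw [hρe]
      refine bW.trans ?_
      apply mul_le_mul_of_nonneg_right _ hU.le
      calc (2 * C₁ + 6) * (n * k) ≤ (2 * C₁ + 6) * (n * (2 * n)) := by
            apply mul_le_mul_of_nonneg_left _ (by positivity)
            exact mul_le_mul_of_nonneg_left hkn hn0.le
        _ = (4 * C₁ + 12) * n ^ 2 := by ring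
        _ ≤ (8 * C₁ + 29) * n ^ 2 := mul_le_mul_of_nonneg_right (by linarith) (by positivity)
    · rw [hρe]
      calc 4 * n / k * (32 * ((T : ℝ) * S) * L / n ^ 3 + 2 * n ^ 2 * k / L + k ^ 3 / L) + 5 * n ^ 3 / L
          ≤ 4 * n / k * ((2 * C₁ + 6) * (n * k) * (E / (μ * s))) + 5 * n ^ 2 * (E / (μ * s)) :=
            add_le_add (mul_le_mul_of_nonneg_left bW (by positivity)) b4
        _ = (8 * C₁ + 29) * n ^ 2 * (E / (μ * s)) := by
            field_simp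
            ring
    · rw [div_le_div_iff₀ hT0 hQ0]
      have : 128 * (μ * s ^ 2) * (x / 2) = Q := by
        rw [← hxe]
        ring
      have h5 := mul_le_mul_of_nonneg_left hT2 (show 0 ≤ 128 * (μ * s ^ 2) by positivity)
      linarith

theorem NA8 : NA8_stmt := by
  intro C₁ A hC₁ hA
  obtain ⟨N₁', hN₁'⟩ := Filter.eventually_atTop.mp
    ((tendsto_rpow_atTop (show (0 : ℝ) < 0.014 by norm_num)).eventually_ge_atTop (6 * A ^ 2))
  obtain ⟨N₂', hN₂'⟩ := Filter.eventually_atTop.mp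
    ((tendsto_rpow_atTop (show (0 : ℝ) < 0.049 by norm_num)).eventually_ge_atTop (4 : ℝ))
  refine ⟨8 * C₁ + 29, max 1 (max N₁' N₂'), by linarith, le_max_left _ _, ?_⟩
  intro N Y hN hY hYA d er es n k hd hdN her hes hE hn hk hkn hkv μ hμ
  simp only [max_le_iff] at hN
  obtain ⟨hN1, m1, m2⟩ := hN
  have hN0 : 0 < N := by linarith
  have hA0 : 0 < A := by linarith
  have hY1 : 1 ≤ Y := (Real.one_le_rpow hN1 (by norm_num)).trans hY
  have hY0 : 0 < Y := by linarith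
  have hs0 : 0 < √Y := Real.sqrt_pos.mpr hY0
  have hsY : √Y ^ 2 = Y := Real.sq_sqrt hY0.le
  have hd1 : (1 : ℝ) ≤ d := by exact_mod_cast hd
  have hR1 : (1 : ℝ) ≤ er := by exact_mod_cast her
  have hS1 : (1 : ℝ) ≤ es := by exact_mod_cast hes
  have hn1 : (1 : ℝ) ≤ n := by exact_mod_cast hn
  have hk1 : (1 : ℝ) ≤ k := by exact_mod_cast hk
  have hkn' : (k : ℝ) ≤ 2 * n := by exact_mod_cast hkn
  have hE' : (er : ℝ) * es ≤ d := by exact_mod_cast hE
  have hM0 : 0 < √N := Real.sqrt_pos.mpr hN0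
  have hYs : 0 < 6 * (Y * √Y) := by positivity
  set v := (k : ℝ) * d * √N / (6 * (Y * √Y)) with hv
  have hv0 : 0 < v := by positivity
  have hv1 : v ≤ 1 := (div_le_one hYs).mpr hkv
  have hμ0 : 0 < μ := by
    rw [hμ]
    exact Real.rpow_pos_of_pos hv0 _
  have hμ1 : μ ≤ 1 := by
    rw [hμ]
    exact Real.rpow_le_one hv0.le hv1 (by norm_num)
  have hAs : √A ≤ A := by
    rw [Real.sqrt_le_left hA0.le]
    nlinarith
  have hYup : Y ≤ A * N ^ (1 / 2 : ℝ) := by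
    calc Y = √(Y ^ 2) := (Real.sqrt_sq hY0.le).symm
      _ ≤ √(A * N) := Real.sqrt_le_sqrt hYA
      _ = √A * √N := Real.sqrt_mul hA0.le N
      _ ≤ A * √N := mul_le_mul_of_nonneg_right hAs hM0.le
      _ = A * N ^ (1 / 2 : ℝ) := by rw [Real.sqrt_eq_rpow]
  have hsup : √Y ≤ A * N ^ (1 / 4 : ℝ) := by
    calc √Y ≤ √(A * N ^ (1 / 2 : ℝ)) := Real.sqrt_le_sqrt hYup
      _ = √A * √(N ^ (1 / 2 : ℝ)) := Real.sqrt_mul hA0.le _
      _ ≤ A * √(N ^ (1 / 2 : ℝ)) := mul_le_mul_of_nonneg_right hAs (Real.sqrt_nonneg _)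
      _ = A * N ^ (1 / 4 : ℝ) := by
          rw [Real.sqrt_eq_rpow, ← Real.rpow_mul hN0.le]
          norm_num
  have hYY : Y * √Y ≤ A ^ 2 * N ^ (3 / 4 : ℝ) := by
    calc Y * √Y ≤ (A * N ^ (1 / 2 : ℝ)) * (A * N ^ (1 / 4 : ℝ)) := mul_le_mul hYup hsup hs0.le (by positivity)
      _ = A ^ 2 * (N ^ (1 / 2 : ℝ) * N ^ (1 / 4 : ℝ)) := by ring
      _ = A ^ 2 * N ^ (3 / 4 : ℝ) := by
          rw [← Real.rpow_add hN0]
          norm_num
  have hvlow : N ^ (-0.264 : ℝ) ≤ v := by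
    rw [hv, le_div_iff₀ hYs]
    calc N ^ (-0.264 : ℝ) * (6 * (Y * √Y)) ≤ N ^ (-0.264 : ℝ) * (6 * (A ^ 2 * N ^ (3 / 4 : ℝ))) := by
          apply mul_le_mul_of_nonneg_left _ (Real.rpow_nonneg hN0.le _)
          linarith
      _ = N ^ (-0.264 : ℝ) * N ^ (3 / 4 : ℝ) * (6 * A ^ 2) := by ring
      _ ≤ N ^ (-0.264 : ℝ) * N ^ (3 / 4 : ℝ) * N ^ (0.014 : ℝ) :=
          mul_le_mul_of_nonneg_left (hN₁' N m1) (by positivity)
      _ = N ^ (1 / 2 : ℝ) := by
          rw [← Real.rpow_add hN0, ← Real.rpow_add hN0]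
          norm_num
      _ = √N := by rw [Real.sqrt_eq_rpow]
      _ ≤ (k * d) * √N := by
          apply le_mul_of_one_le_left hM0.le
          exact one_le_mul_of_one_le_of_one_le hk1 hd1
  have hμlow : N ^ (-0.006 : ℝ) ≤ μ := by
    calc N ^ (-0.006 : ℝ) = (N ^ (-0.264 : ℝ)) ^ (1 / 44 : ℝ) := by
          rw [← Real.rpow_mul hN0.le]
          norm_num
      _ ≤ v ^ (1 / 44 : ℝ) := Real.rpow_le_rpow (Real.rpow_nonneg hN0.le _) hvlow (by norm_num)
      _ = μ := hμ.symm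
  have hslow : N ^ (0.245 : ℝ) ≤ √Y := by
    calc N ^ (0.245 : ℝ) = √(N ^ (0.49 : ℝ)) := by
          rw [Real.sqrt_eq_rpow, ← Real.rpow_mul hN0.le]
          norm_num
      _ ≤ √Y := Real.sqrt_le_sqrt hY
  have hbig : 4 * ((er : ℝ) * es) ≤ μ * n * √Y := by
    calc 4 * ((er : ℝ) * es) ≤ N ^ (0.049 : ℝ) * N ^ (0.19 : ℝ) :=
          mul_le_mul (hN₂' N m2) (hE'.trans hdN) (by positivity) (Real.rpow_nonneg hN0.le _)
      _ = N ^ (-0.006 : ℝ) * N ^ (0.245 : ℝ) := by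
          rw [← Real.rpow_add hN0, ← Real.rpow_add hN0]
          norm_num
      _ ≤ μ * √Y := mul_le_mul hμlow hslow (Real.rpow_nonneg hN0.le _) hμ0.le
      _ ≤ μ * √Y * n := le_mul_of_one_le_right (by positivity) hn1
      _ = μ * n * √Y := by ring
  obtain ⟨L, T, ρ, a1, a2, a3, a4, a5, a6, a7, a8⟩ := NA8_core n k er es (√Y) C₁ μ hn1 hk1 hkn' hR1 hS1 hs0 hC₁ hμ0 hμ1 hbig
  rw [hsY] at a5 a7 a8
  exact ⟨L, T, ρ, a1, a2, a3, a4, a5, a6, a7, a8⟩

end Pool.Agent.T8
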