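import Pool.Agent.helper88.T8.Spec

set_option autoImplicit false

/-! Row t8:NB8 (MP_16912e_nt): the final inequality for one block. -/

namespace Pool.Agent.T8

open Finset NumberField Pool.Agent.helper3.FT Pool.Agent.helper47.RA Pool.Agent.T5 Pool.Agent.T6 Pool.Agent.T7
open scoped nonZeroDivisors

theorem NB8_W (x B z : ℝ) (hx : 0 ≤ x) (hB : 1 ≤ B) (hz : 0 ≤ z) (h : x ≤ B * z ^ 4) : x ^ (3 / 4 : ℝ) ≤ B * z ^ 3 := by
  calc x ^ (3 / 4 : ℝ) ≤ (B * z ^ 4) ^ (3 / 4 : ℝ) := Real.rpow_le_rpow hx h (by norm_num)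
    _ = B ^ (3 / 4 : ℝ) * (z ^ 4) ^ (3 / 4 : ℝ) := Real.mul_rpow (by linarith) (by positivity)
    _ = B ^ (3 / 4 : ℝ) * z ^ 3 := by
        congr 1
        rw [← Real.rpow_natCast, ← Real.rpow_mul hz, ← Real.rpow_natCast]
        norm_num
    _ ≤ B * z ^ 3 := by
        apply mul_le_mul_of_nonneg_right _ (by positivity)
        calc B ^ (3 / 4 : ℝ) ≤ B ^ (1 : ℝ) := Real.rpow_le_rpow_of_exponent_le hB (by norm_num)
          _ = B := Real.rpow_one B

theorem NB8_pow (ρ T : ℝ) (hρ : 0 ≤ ρ) (hT : 1 ≤ T) :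
    ρ ^ (3 / 2 : ℝ) * T ^ (-(3 / 4) : ℝ) = (ρ ^ 2 * (1 / T)) ^ (3 / 4 : ℝ) := by
  rw [Real.mul_rpow (by positivity) (by positivity)]
  congr 1
  · rw [← Real.rpow_natCast, ← Real.rpow_mul hρ]
    norm_num
  · rw [Real.rpow_neg (by linarith), one_div, Real.inv_rpow (by linarith)]

theorem NB8_core (n k d R S y s a A C₁ C₂ μ u L T ρ : ℝ) (hn : 1 ≤ n) (hk : 1 ≤ k) (hd : 1 ≤ d) (hR : 1 ≤ R)
    (hS : 1 ≤ S) (hy : 1 ≤ y) (hs : 0 < s) (ha0 : 0 < a) (ha : a ≤ A) (ha2 : a ^ 2 ≤ A) (hA : 1 ≤ A) (hC₁ : 1 ≤ C₁)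
    (hC₂ : 1 ≤ C₂) (hμ0 : 0 < μ) (hμ1 : μ ≤ 1) (hu0 : 0 < u) (hu1 : u ≤ 1) (hRS : R * S ≤ d)
    (hRSy : R ^ 2 * S * y ≤ d ^ 2) (hnd : n * d = 6 * u * a * s) (hkd : k * d = 6 * μ ^ 44 * a * s) (hL0 : 0 ≤ L)
    (hT : 1 ≤ T) (hρ : 0 ≤ ρ) (hL : L * (R * S) ≤ C₂ * (μ * n * s))
    (hT1 : 1 / T ≤ 128 * (μ * s ^ 2) / (n ^ 3 * k * S * R ^ 2))
    (hc : T = 1 ∧ ρ = 0 ∨ (64 * T * (μ * s ^ 2) ≤ n ^ 3 * k * S * R ^ 2 ∧ ρ ≤ C₂ * (n ^ 2 * (R * S) / (μ * s)))) :
    C₁ / μ ^ 2 * (n * k / y) * (L ^ 2 * (μ * s ^ 2 / (n ^ 3 * k * S * R ^ 2) + 1 / T) +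
      L * (1 + ρ ^ (3 / 2 : ℝ) * T ^ (-(3 / 4) : ℝ) * (1 + T * y / (n * k)))) ≤
      60000 * (A ^ 3 * C₁ * C₂ ^ 3) * (μ * (s ^ 4 / y / (R ^ 4 * S ^ 3))) := by
  have hn0 : 0 < n := by linarith
  have hk0 : 0 < k := by linarith
  have hd0 : 0 < d := by linarith
  have hR0 : 0 < R := by linarith
  have hS0 : 0 < S := by linarith
  have hy0 : 0 < y := by linarith
  have hT0 : 0 < T := by linarith
  have hA0 : 0 < A := by linarith
  have hC10 : 0 < C₁ := by linarith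
  have hC20 : 0 < C₂ := by linarith
  set G := s ^ 4 / y / (R ^ 4 * S ^ 3) with hG
  have hG0 : 0 < G := by positivity
  set X := n ^ 2 * k * s / (y * (R * S)) with hX
  have hX0 : 0 < X := by positivity
  have ha3 : a ^ 3 ≤ A ^ 2 := by
    calc a ^ 3 = a ^ 2 * a := by ring
      _ ≤ A * A := mul_le_mul ha2 ha ha0.le hA0.le
      _ = A ^ 2 := by ring
  have hXb : X * S ≤ 216 * A ^ 2 * μ ^ 44 * G := by
    have e1 : n ^ 2 * k * (R * S) ^ 3 ≤ 216 * A ^ 2 * μ ^ 44 * s ^ 3 := by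
      calc n ^ 2 * k * (R * S) ^ 3 ≤ n ^ 2 * k * d ^ 3 := by
            apply mul_le_mul_of_nonneg_left _ (by positivity)
            exact pow_le_pow_left₀ (by positivity) hRS 3
        _ = (n * d) ^ 2 * (k * d) := by ring
        _ = 216 * (u ^ 2 * (a ^ 3 * (μ ^ 44 * s ^ 3))) := by
            rw [hnd, hkd]
            ring
        _ ≤ 216 * (1 * (A ^ 2 * (μ ^ 44 * s ^ 3))) := by
            apply mul_le_mul_of_nonneg_left _ (by norm_num)
            apply mul_le_mul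
            · exact pow_le_one₀ hu0.le hu1
            · exact mul_le_mul_of_nonneg_right ha3 (by positivity)
            · positivity
            · norm_num
        _ = 216 * A ^ 2 * μ ^ 44 * s ^ 3 := by ring
    have e2 : X * S = n ^ 2 * k * (R * S) ^ 3 * (s / (y * R ^ 4 * S ^ 3)) := by
      rw [hX]
      field_simp
    have e3 : 216 * A ^ 2 * μ ^ 44 * G = 216 * A ^ 2 * μ ^ 44 * s ^ 3 * (s / (y * R ^ 4 * S ^ 3)) := by
      rw [hG]
      field_simp
    rw [e2, e3]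
    exact mul_le_mul_of_nonneg_right e1 (by positivity)
  have hLb : L ≤ C₂ * (μ * n * s) / (R * S) := by
    rw [le_div_iff₀ (by positivity)]
    exact hL
  have hXL : n * k / y * L ≤ C₂ * μ * X := by
    calc n * k / y * L ≤ n * k / y * (C₂ * (μ * n * s) / (R * S)) := mul_le_mul_of_nonneg_left hLb (by positivity)
      _ = C₂ * μ * X := by
          rw [hX]
          field_simp
  have hμp : ∀ j : ℕ, 1 ≤ j → μ ^ j ≤ μ := fun j hj => by
    calc μ ^ j ≤ μ ^ 1 := pow_le_pow_of_le_one hμ0.le hμ1 hj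
      _ = μ := pow_one μ
  have hACC : 1 ≤ A ^ 3 * C₁ * C₂ ^ 3 := one_le_mul_of_one_le_of_one_le (one_le_mul_of_one_le_of_one_le (one_le_pow₀ hA) hC₁) (one_le_pow₀ hC₂)
  -- term 1
  have t1 : C₁ / μ ^ 2 * (n * k / y) * (L ^ 2 * (μ * s ^ 2 / (n ^ 3 * k * S * R ^ 2) + 1 / T)) ≤
      129 * (A ^ 3 * C₁ * C₂ ^ 3) * (μ * G) := by
    have f1 : μ * s ^ 2 / (n ^ 3 * k * S * R ^ 2) + 1 / T ≤ 129 * (μ * s ^ 2) / (n ^ 3 * k * S * R ^ 2) := by
      have : 129 * (μ * s ^ 2) / (n ^ 3 * k * S * R ^ 2) =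
          μ * s ^ 2 / (n ^ 3 * k * S * R ^ 2) + 128 * (μ * s ^ 2) / (n ^ 3 * k * S * R ^ 2) := by ring
      rw [this]
      linarith
    have f2 : L ^ 2 ≤ (C₂ * (μ * n * s) / (R * S)) ^ 2 := pow_le_pow_left₀ hL0 hLb 2
    calc C₁ / μ ^ 2 * (n * k / y) * (L ^ 2 * (μ * s ^ 2 / (n ^ 3 * k * S * R ^ 2) + 1 / T))
        ≤ C₁ / μ ^ 2 * (n * k / y) * ((C₂ * (μ * n * s) / (R * S)) ^ 2 * (129 * (μ * s ^ 2) / (n ^ 3 * k * S * R ^ 2))) := by
          apply mul_le_mul_of_nonneg_left _ (by positivity)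
          apply mul_le_mul f2 f1 (by positivity) (by positivity)
      _ = 129 * (1 * C₁ * C₂ ^ 2) * (μ * G) := by
          rw [hG]
          field_simp
      _ ≤ 129 * (A ^ 3 * C₁ * C₂ ^ 3) * (μ * G) := by
          apply mul_le_mul_of_nonneg_right _ (by positivity)
          apply mul_le_mul_of_nonneg_left _ (by norm_num)
          apply mul_le_mul
          · exact mul_le_mul_of_nonneg_right (one_le_pow₀ hA) hC10.le
          · exact pow_le_pow_right₀ hC₂ (by norm_num)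
          · positivity
          · positivity
  -- term 2
  have t2 : C₁ / μ ^ 2 * (n * k / y) * L ≤ 216 * (A ^ 3 * C₁ * C₂ ^ 3) * (μ * G) := by
    calc C₁ / μ ^ 2 * (n * k / y) * L = C₁ / μ ^ 2 * (n * k / y * L) := by ring
      _ ≤ C₁ / μ ^ 2 * (C₂ * μ * X) := mul_le_mul_of_nonneg_left hXL (by positivity)
      _ = C₁ * C₂ / μ * X := by field_simp
      _ ≤ C₁ * C₂ / μ * (X * S) := by
          apply mul_le_mul_of_nonneg_left _ (by positivity)
          exact le_mul_of_one_le_right hX0.le hS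
      _ ≤ C₁ * C₂ / μ * (216 * A ^ 2 * μ ^ 44 * G) := mul_le_mul_of_nonneg_left hXb (by positivity)
      _ = 216 * (A ^ 2 * C₁ * C₂) * (μ ^ 43 * G) := by field_simp
      _ ≤ 216 * (A ^ 3 * C₁ * C₂ ^ 3) * (μ * G) := by
          apply mul_le_mul
          · apply mul_le_mul_of_nonneg_left _ (by norm_num)
            apply mul_le_mul
            · exact mul_le_mul_of_nonneg_right (pow_le_pow_right₀ hA (by norm_num)) hC10.le
            · calc C₂ = C₂ ^ 1 := (pow_one _).symm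
                _ ≤ C₂ ^ 3 := pow_le_pow_right₀ hC₂ (by norm_num)
            · positivity
            · positivity
          · exact mul_le_mul_of_nonneg_right (hμp 43 (by norm_num)) hG0.le
          · positivity
          · positivity
  -- term 3
  have t3 : C₁ / μ ^ 2 * (n * k / y) * L * (ρ ^ (3 / 2 : ℝ) * T ^ (-(3 / 4) : ℝ) * (1 + T * y / (n * k))) ≤
      55296 * (A ^ 3 * C₁ * C₂ ^ 3) * (μ * G) := by
    rcases hc with ⟨-, h0⟩ | ⟨h1, h2⟩
    · rw [h0, Real.zero_rpow (by norm_num)]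
      simp only [zero_mul, mul_zero]
      positivity
    · have w1 : ρ ^ 2 * (1 / T) ≤ (128 * C₂ ^ 2 * S) * (1 / μ ^ 12) ^ 4 := by
        have g1 : n * μ ^ 44 ≤ k := by
          have : n * μ ^ 44 * d = u * (k * d) := by
            rw [hkd]
            calc n * μ ^ 44 * d = (n * d) * μ ^ 44 := by ring
              _ = 6 * u * a * s * μ ^ 44 := by rw [hnd]
              _ = u * (6 * μ ^ 44 * a * s) := by ring
          have h3 : n * μ ^ 44 * d ≤ k * d := by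
            rw [this]
            exact mul_le_of_le_one_left (by positivity) hu1
          exact le_of_mul_le_mul_right h3 hd0
        have g2 : n / k ≤ 1 / μ ^ 44 := by
          rw [div_le_div_iff₀ hk0 (by positivity)]
          linarith
        calc ρ ^ 2 * (1 / T) ≤ (C₂ * (n ^ 2 * (R * S) / (μ * s))) ^ 2 * (128 * (μ * s ^ 2) / (n ^ 3 * k * S * R ^ 2)) := by
              apply mul_le_mul (pow_le_pow_left₀ hρ h2 2) hT1 (by positivity) (by positivity)
          _ = 128 * C₂ ^ 2 * S * ((n / k) * (1 / μ)) := by field_simp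
          _ ≤ 128 * C₂ ^ 2 * S * ((1 / μ ^ 44) * (1 / μ ^ 4)) := by
              apply mul_le_mul_of_nonneg_left _ (by positivity)
              apply mul_le_mul g2 _ (by positivity) (by positivity)
              apply one_div_le_one_div_of_le (by positivity) (hμp 4 (by norm_num))
          _ = (128 * C₂ ^ 2 * S) * (1 / μ ^ 12) ^ 4 := by field_simp
      have w2 : ρ ^ (3 / 2 : ℝ) * T ^ (-(3 / 4) : ℝ) ≤ 128 * C₂ ^ 2 * S * (1 / μ ^ 12) ^ 3 := by
        rw [NB8_pow ρ T hρ hT]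
        apply NB8_W _ _ _ (by positivity) _ (by positivity) w1
        have : 1 ≤ C₂ ^ 2 := one_le_pow₀ hC₂
        nlinarith
      have w3 : 1 + T * y / (n * k) ≤ 2 * A / μ := by
        have g3 : T * y / (n * k) ≤ A / μ := by
          rw [div_le_div_iff₀ (by positivity) hμ0]
          have g4 : 64 * (T * y * μ * s ^ 2) ≤ 36 * (A * (n * k) * s ^ 2) := by
            calc 64 * (T * y * μ * s ^ 2) = (64 * T * (μ * s ^ 2)) * y := by ring
              _ ≤ (n ^ 3 * k * S * R ^ 2) * y := mul_le_mul_of_nonneg_right h1 hy0.le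
              _ = n ^ 3 * k * (R ^ 2 * S * y) := by ring
              _ ≤ n ^ 3 * k * d ^ 2 := mul_le_mul_of_nonneg_left hRSy (by positivity)
              _ = (n * k) * (n * d) ^ 2 := by ring
              _ = 36 * (n * k) * (u ^ 2 * (a ^ 2 * s ^ 2)) := by
                  rw [hnd]
                  ring
              _ ≤ 36 * (n * k) * (1 * (A * s ^ 2)) := by
                  apply mul_le_mul_of_nonneg_left _ (by positivity)
                  apply mul_le_mul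
                  · exact pow_le_one₀ hu0.le hu1
                  · exact mul_le_mul_of_nonneg_right ha2 (by positivity)
                  · positivity
                  · norm_num
              _ = 36 * (A * (n * k) * s ^ 2) := by ring
          have g5 : T * y * μ * s ^ 2 ≤ A * (n * k) * s ^ 2 := by
            have : 0 ≤ A * (n * k) * s ^ 2 := by positivity
            nlinarith
          exact le_of_mul_le_mul_right g5 (by positivity)
        have g6 : 1 ≤ A / μ := by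
          rw [one_le_div hμ0]
          linarith
        calc 1 + T * y / (n * k) ≤ A / μ + A / μ := add_le_add g6 g3
          _ = 2 * A / μ := by ring
      have w0 : 0 ≤ ρ ^ (3 / 2 : ℝ) * T ^ (-(3 / 4) : ℝ) :=
        mul_nonneg (Real.rpow_nonneg hρ _) (Real.rpow_nonneg hT0.le _)
      calc C₁ / μ ^ 2 * (n * k / y) * L * (ρ ^ (3 / 2 : ℝ) * T ^ (-(3 / 4) : ℝ) * (1 + T * y / (n * k)))
          ≤ C₁ / μ ^ 2 * (n * k / y) * L * ((128 * C₂ ^ 2 * S * (1 / μ ^ 12) ^ 3) * (2 * A / μ)) := by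
            apply mul_le_mul_of_nonneg_left _ (by positivity)
            exact mul_le_mul w2 w3 (by positivity) (by positivity)
        _ = C₁ / μ ^ 2 * ((128 * C₂ ^ 2 * S * (1 / μ ^ 12) ^ 3) * (2 * A / μ)) * (n * k / y * L) := by ring
        _ ≤ C₁ / μ ^ 2 * ((128 * C₂ ^ 2 * S * (1 / μ ^ 12) ^ 3) * (2 * A / μ)) * (C₂ * μ * X) :=
            mul_le_mul_of_nonneg_left hXL (by positivity)
        _ = 256 * (A * C₁ * C₂ ^ 3) / μ ^ 38 * (X * S) := by
            field_simp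
            norm_num
        _ ≤ 256 * (A * C₁ * C₂ ^ 3) / μ ^ 38 * (216 * A ^ 2 * μ ^ 44 * G) := mul_le_mul_of_nonneg_left hXb (by positivity)
        _ = 55296 * (A ^ 3 * C₁ * C₂ ^ 3) * (μ ^ 6 * G) := by
            field_simp
            norm_num
        _ ≤ 55296 * (A ^ 3 * C₁ * C₂ ^ 3) * (μ * G) := by
            apply mul_le_mul_of_nonneg_left _ (by positivity)
            exact mul_le_mul_of_nonneg_right (hμp 6 (by norm_num)) hG0.le
  have hsum : C₁ / μ ^ 2 * (n * k / y) * (L ^ 2 * (μ * s ^ 2 / (n ^ 3 * k * S * R ^ 2) + 1 / T) +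
      L * (1 + ρ ^ (3 / 2 : ℝ) * T ^ (-(3 / 4) : ℝ) * (1 + T * y / (n * k)))) =
      C₁ / μ ^ 2 * (n * k / y) * (L ^ 2 * (μ * s ^ 2 / (n ^ 3 * k * S * R ^ 2) + 1 / T)) +
      C₁ / μ ^ 2 * (n * k / y) * L +
      C₁ / μ ^ 2 * (n * k / y) * L * (ρ ^ (3 / 2 : ℝ) * T ^ (-(3 / 4) : ℝ) * (1 + T * y / (n * k))) := by ring
  rw [hsum]
  have hH : 0 ≤ A ^ 3 * C₁ * C₂ ^ 3 * (μ * G) := by positivity
  nlinarith

theorem NB8 : NB8_stmt := by
  intro C₁ C₂ A hC₁ hC₂ hA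
  have hACC : 1 ≤ A ^ 3 * C₁ * C₂ ^ 3 := one_le_mul_of_one_le_of_one_le (one_le_mul_of_one_le_of_one_le (one_le_pow₀ hA) hC₁) (one_le_pow₀ hC₂)
  refine ⟨120000 * (A ^ 3 * C₁ * C₂ ^ 3), by linarith, ?_⟩
  intro N Y hN hY hYA d er es y N₁ K₁ hd her hes hy hE hEy hN₁ hK₁ hKN hNu hKv μ hμ L T ρ hL hT hρ hLC hT1 hc
  have hN0 : 0 < N := by linarith
  have hY0 : 0 < Y := by linarith
  set s := √Y with hs
  have hs0 : 0 < s := Real.sqrt_pos.mpr hY0
  have hsY : s ^ 2 = Y := Real.sq_sqrt hY0.le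
  set M := √N with hM
  have hM0 : 0 < M := Real.sqrt_pos.mpr hN0
  have hMN : M ^ 2 = N := Real.sq_sqrt hN0.le
  have hd1 : (1 : ℝ) ≤ d := by exact_mod_cast hd
  have hR1 : (1 : ℝ) ≤ er := by exact_mod_cast her
  have hS1 : (1 : ℝ) ≤ es := by exact_mod_cast hes
  have hy1 : (1 : ℝ) ≤ y := by exact_mod_cast hy
  have hn1 : (1 : ℝ) ≤ N₁ := by exact_mod_cast hN₁
  have hk1 : (1 : ℝ) ≤ K₁ := by exact_mod_cast hK₁
  have hL1 : (1 : ℝ) ≤ L := by exact_mod_cast hL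
  have hT1' : (1 : ℝ) ≤ T := by exact_mod_cast hT
  have hE' : (er : ℝ) * es ≤ d := by exact_mod_cast hE
  have hEy' : (er : ℝ) ^ 2 * es * y ≤ (d : ℝ) ^ 2 := by exact_mod_cast hEy
  have hKN' : (K₁ : ℝ) ≤ 2 * N₁ := by exact_mod_cast hKN
  have hYs : 0 < 6 * (Y * s) := by positivity
  set u := (N₁ : ℝ) * d * M / (6 * (Y * s)) with hu
  set v := (K₁ : ℝ) * d * M / (6 * (Y * s)) with hv
  have hu0 : 0 < u := by positivity
  have hv0 : 0 < v := by positivity
  have hu1 : u ≤ 1 := (div_le_one hYs).mpr hNu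
  have hv1 : v ≤ 1 := (div_le_one hYs).mpr hKv
  have hvu : v ≤ 2 * u := by
    rw [hu, hv, ← mul_div_assoc]
    apply div_le_div_of_nonneg_right _ hYs.le
    calc (K₁ : ℝ) * d * M ≤ (2 * N₁) * d * M := by
          apply mul_le_mul_of_nonneg_right _ hM0.le
          exact mul_le_mul_of_nonneg_right hKN' (by linarith)
      _ = 2 * (N₁ * d * M) := by ring
  have hμ0 : 0 < μ := by
    rw [hμ]
    exact Real.rpow_pos_of_pos hv0 _
  have hμ1 : μ ≤ 1 := by
    rw [hμ]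
    exact Real.rpow_le_one hv0.le hv1 (by norm_num)
  have hμv : μ ^ 44 = v := by
    rw [hμ, ← Real.rpow_natCast, ← Real.rpow_mul hv0.le]
    norm_num
  have hnd : (N₁ : ℝ) * d = 6 * u * (s ^ 2 / M) * s := by
    rw [hu, ← hsY]
    field_simp
  have hkd : (K₁ : ℝ) * d = 6 * μ ^ 44 * (s ^ 2 / M) * s := by
    rw [hμv, hv, ← hsY]
    field_simp
  have ha2 : (s ^ 2 / M) ^ 2 ≤ A := by
    rw [hsY, div_pow, hMN, div_le_iff₀ hN0]
    exact hYA
  have ha0 : 0 < s ^ 2 / M := by positivity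
  have ha : s ^ 2 / M ≤ A := by
    by_contra h
    push Not at h
    have : A * 1 < (s ^ 2 / M) * (s ^ 2 / M) := by
      apply mul_lt_mul h (hA.trans h.le) one_pos ha0.le
    nlinarith
  have key := NB8_core N₁ K₁ d er es y s (s ^ 2 / M) A C₁ C₂ μ u L T ρ hn1 hk1 hd1 hR1 hS1 hy1 hs0 ha0 ha ha2 hA hC₁ hC₂
    hμ0 hμ1 hu0 hu1 hE' hEy' hnd hkd (by linarith) hT1' hρ hLC (by rw [hsY]; exact hT1) (by
      rcases hc with ⟨c1, c2⟩ | ⟨c1, c2⟩
      · left
        exact ⟨by rw [c1]; norm_num, c2⟩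
      · right
        rw [hsY]
        exact ⟨c1, c2⟩)
  have hμuv : μ ≤ 2 * (u * v) ^ (1 / 88 : ℝ) := by
    have k1 : v ^ 2 ≤ 2 * (u * v) := by nlinarith
    calc μ = (v ^ 2) ^ (1 / 88 : ℝ) := by
          rw [hμ, ← Real.rpow_natCast, ← Real.rpow_mul hv0.le]
          norm_num
      _ ≤ (2 * (u * v)) ^ (1 / 88 : ℝ) := Real.rpow_le_rpow (by positivity) k1 (by norm_num)
      _ = 2 ^ (1 / 88 : ℝ) * (u * v) ^ (1 / 88 : ℝ) := Real.mul_rpow (by norm_num) (by positivity)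
      _ ≤ 2 * (u * v) ^ (1 / 88 : ℝ) := by
          apply mul_le_mul_of_nonneg_right _ (Real.rpow_nonneg (by positivity) _)
          calc (2 : ℝ) ^ (1 / 88 : ℝ) ≤ 2 ^ (1 : ℝ) := Real.rpow_le_rpow_of_exponent_le (by norm_num) (by norm_num)
            _ = 2 := Real.rpow_one 2
  rw [hsY] at key
  refine key.trans ?_
  have hG0 : 0 ≤ s ^ 4 / y / ((er : ℝ) ^ 4 * (es : ℝ) ^ 3) := by positivity
  have e4 : s ^ 4 = Y ^ 2 := by
    rw [← hsY]
    ring
  calc 60000 * (A ^ 3 * C₁ * C₂ ^ 3) * (μ * (s ^ 4 / y / ((er : ℝ) ^ 4 * (es : ℝ) ^ 3)))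
      ≤ 60000 * (A ^ 3 * C₁ * C₂ ^ 3) * (2 * (u * v) ^ (1 / 88 : ℝ) * (s ^ 4 / y / ((er : ℝ) ^ 4 * (es : ℝ) ^ 3))) := by
        apply mul_le_mul_of_nonneg_left _ (by positivity)
        exact mul_le_mul_of_nonneg_right hμuv hG0
    _ = 120000 * (A ^ 3 * C₁ * C₂ ^ 3) * (u * v) ^ (1 / 88 : ℝ) * (Y ^ 2 / y / ((er : ℝ) ^ 4 * (es : ℝ) ^ 3)) := by
        rw [e4]
        ring

end Pool.Agent.T8
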