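import Pool.Agent.helper88.T8.Spec
import Pool.Agent.helper88.T7.ZSW

set_option autoImplicit false

/-! Row t8:NR8 (MP_16912e_nt): the near classes are few. -/

namespace Pool.Agent.T8

open Finset NumberField Pool.Agent.helper3.FT Pool.Agent.helper47.RA Pool.Agent.T5 Pool.Agent.T6 Pool.Agent.T7
open scoped nonZeroDivisors

theorem NR8_step (h1 : MU7_stmt) {K : Type} [Field K] [NumberField K] (Q : QF K) (hD : Q.D < 0) (A Y B : ℝ)
    (hA : 1 ≤ A) (hB : A * Y ≤ B) : (NE8 K A Y).ncard ≤ (EX Q Y B).ncard + (NE8 K A (Y / 2)).ncard := by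
  have hCLS := fun Y c => ZL_CLS h1 Q hD Y c
  obtain ⟨f, hinj, hf⟩ := ZL_map h1 Q hD
  have hfin : (EX Q Y B).Finite := (SFA.1 K Y).subset fun a ha => ha.1
  have hsub : NE8 K A Y ⊆ {c | c ∈ NE8 K A Y ∧ Y / 2 < (mu c : ℝ)} ∪ NE8 K A (Y / 2) := by
    rintro c ⟨hc, hcA⟩
    rcases lt_or_ge (Y / 2) (mu c : ℝ) with h | h
    · exact Or.inl ⟨⟨hc, hcA⟩, h⟩
    · right
      obtain ⟨b1, b2, -⟩ := (hCLS _ _).mp hc
      exact ⟨(hCLS _ _).mpr ⟨b1, b2, h⟩, hcA⟩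
  have h4 : ({c | c ∈ NE8 K A Y ∧ Y / 2 < (mu c : ℝ)} : Set (ClassGroup (𝓞 K))).ncard ≤ (EX Q Y B).ncard := by
    refine Set.ncard_le_ncard_of_injOn f ?_ (hinj.injOn) hfin
    rintro c ⟨⟨hc, hcA, -⟩, hcY⟩
    obtain ⟨c5, c1, cY⟩ := (hCLS _ _).mp hc
    obtain ⟨f1, f2, f3, f4, f5, f6, -, α, hα, hα0, hαe⟩ := hf c
    refine ⟨ZL_IA f c _ f1 f2 f3 f5 f6 c5 c1 hcY cY, α, hα, hα0, ?_⟩
    rw [hαe, f3]
    apply mul_le_mul_of_nonneg_left _ (by positivity)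
    have h5 : A * (mu c : ℝ) ≤ A * Y := mul_le_mul_of_nonneg_left cY (by linarith)
    linarith
  have h5 := Set.ncard_le_ncard hsub (Set.toFinite _)
  have h6 := Set.ncard_union_le {c | c ∈ NE8 K A Y ∧ Y / 2 < (mu c : ℝ)} (NE8 K A (Y / 2))
  omega

theorem NR8_iter (h1 : MU7_stmt) {K : Type} [Field K] [NumberField K] (Q : QF K) (hD : Q.D < 0) (A Y B : ℝ)
    (hA : 1 ≤ A) (hB : A * Y ≤ B) (hY : 0 < Y) (J : ℕ) :
    (NE8 K A Y).ncard ≤ (∑ j ∈ range J, (EX Q (Y / 2 ^ j) B).ncard) + (NE8 K A (Y / 2 ^ J)).ncard := by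
  induction J with
  | zero => simp
  | succ J ih =>
    have h2 : A * (Y / 2 ^ J) ≤ B :=
      (mul_le_mul_of_nonneg_left (div_le_self hY.le (one_le_pow₀ (by norm_num))) (by linarith)).trans hB
    have h3 := NR8_step h1 Q hD A (Y / 2 ^ J) B hA h2
    have e : Y / 2 ^ (J + 1) = Y / 2 ^ J / 2 := by
      rw [pow_succ, div_div]
    rw [Finset.sum_range_succ, e]
    omega

theorem NR8_sum (h1 : MU7_stmt) (N A Y B : ℝ) (hA : 1 ≤ A) (hB : A * Y ≤ B) (hY : 0 < Y) (J : ℕ) :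
    TD7 (fE8 A Y) N ≤ (∑ j ∈ range J, ∑ D ∈ DN N, (cE D (Y / 2 ^ j) B : ℝ)) + TD7 (fC (Y / 2 ^ J)) N := by
  rw [Finset.sum_comm]
  unfold TD7
  rw [← Finset.sum_add_distrib]
  refine Finset.sum_le_sum fun D hD => ?_
  obtain ⟨E, e1, e2, e3, e4, e5, -⟩ := ZL_fld N D hD
  rw [e1, e1]
  simp only [e3]
  have h2 := NR8_iter h1 E.Q (by rw [e4]; exact e5) A Y B hA hB hY J
  have h3 : (NE8 E.K A (Y / 2 ^ J)).ncard ≤ (CLS E.K (Y / 2 ^ J)).ncard :=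
    Set.ncard_le_ncard (fun _ hc => hc.1) (Set.toFinite _)
  have h4 : (NE8 E.K A Y).ncard ≤ (∑ j ∈ range J, (EX E.Q (Y / 2 ^ j) B).ncard) + (CLS E.K (Y / 2 ^ J)).ncard := by
    omega
  show ((NE8 E.K A Y).ncard : ℝ) ≤ _ + ((CLS E.K (Y / 2 ^ J)).ncard : ℝ)
  exact_mod_cast h4

theorem NR8_two (h1 : MU7_stmt) (N A Y l : ℝ) (b : ℕ) (hA : 1 ≤ A) (hl : 0 < l) (hY : 0 < Y)
    (hb : A ≤ 2 ^ b) :
    TD7 (fE8 A Y) N ≤ TD7 (fN (2 ^ b) (l * Y)) N + TD7 (fN8 (l / A ^ 2) (A * Y)) N := by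
  unfold TD7
  rw [← Finset.sum_add_distrib]
  refine Finset.sum_le_sum fun D hD => ?_
  obtain ⟨E, e1, e2, e3, e4, e5, -⟩ := ZL_fld N D hD
  rw [e1, e1, e1]
  have hCLS := fun Y c => ZL_CLS h1 E.Q (by rw [e4]; exact e5) Y c
  have hA0 : 0 < A := by linarith
  have hsub : NE8 E.K A Y ⊆ NR7 E.K (2 ^ b) (l * Y) ∪ NN8 E.K (l / A ^ 2) (A * Y) := by
    rintro c ⟨hc, hc1, hc2⟩
    obtain ⟨b1, b2, b3⟩ := (hCLS _ _).mp hc
    have hm0 : (0 : ℝ) ≤ (mu c : ℝ) := Nat.cast_nonneg _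
    rcases le_or_gt (mu c : ℝ) (l * Y) with h | h
    · left
      exact ⟨(hCLS _ _).mpr ⟨b1, b2, h⟩, hc1.trans (mul_le_mul_of_nonneg_right hb hm0)⟩
    · right
      have k1 : l / A ^ 2 * (A * Y) = l * Y / A := by
        field_simp
      have k2 : l * Y / A ≤ l * Y := div_le_self (by positivity) hA
      refine ⟨b1, b2, ?_, ?_, ?_, ?_⟩
      · rw [k1]
        linarith
      · have : Y ≤ A * Y := le_mul_of_one_le_left hY.le hA
        linarith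
      · rw [k1, div_le_iff₀ hA0]
        linarith
      · have : A * (mu c : ℝ) ≤ A * Y := mul_le_mul_of_nonneg_left b3 hA0.le
        linarith
  have h5 := Set.ncard_le_ncard hsub (Set.toFinite _)
  have h6 := Set.ncard_union_le (NR7 E.K (2 ^ b) (l * Y)) (NN8 E.K (l / A ^ 2) (A * Y))
  show ((NE8 E.K A Y).ncard : ℝ) ≤ ((NR7 E.K (2 ^ b) (l * Y)).ncard : ℝ) + ((NN8 E.K (l / A ^ 2) (A * Y)).ncard : ℝ)
  exact_mod_cast h5.trans h6

theorem NR8 (hMU : MU7_stmt) (hZNB : ZNB_stmt) (hEXC : ∀ δ : ℝ, 0 < δ → δ ≤ 1 / 10 → EXC_stmt δ) (hZTC : ZTC_stmt) (hHI8 : HI8_stmt) :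
    NR8_stmt := by
  intro ε A hε hA
  obtain ⟨δ₀, C₁, hδ₀, hC₁, -, hB⟩ := hZNB
  obtain ⟨δ, hδ, hδa, hδb⟩ : ∃ δ : ℝ, 0 < δ ∧ δ ≤ δ₀ / 2 ∧ δ ≤ 1 / 200 :=
    ⟨min (δ₀ / 2) (1 / 200), lt_min (by linarith) (by norm_num), min_le_left _ _, min_le_right _ _⟩
  have hA0 : 0 < A := by linarith
  obtain ⟨b, hb⟩ : ∃ b : ℕ, A ≤ 2 ^ b := by
    obtain ⟨b, hb⟩ := pow_unbounded_of_one_lt A (by norm_num : (1 : ℝ) < 2)
    exact ⟨b, hb.le⟩
  obtain ⟨N₁, hB'⟩ := hB b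
  have hCb : 0 < C₁ * ((b : ℝ) + 1) := by positivity
  obtain ⟨l, hl, hl1, hl2⟩ : ∃ l : ℝ, 0 < l ∧ l ≤ 1 ∧ C₁ * ((b : ℝ) + 1) * l ≤ ε / 2 := by
    refine ⟨min 1 (ε / 2 / (C₁ * ((b : ℝ) + 1))), lt_min one_pos (by positivity), min_le_left _ _, ?_⟩
    calc C₁ * ((b : ℝ) + 1) * min 1 (ε / 2 / (C₁ * ((b : ℝ) + 1)))
        ≤ C₁ * ((b : ℝ) + 1) * (ε / 2 / (C₁ * ((b : ℝ) + 1))) :=
          mul_le_mul_of_nonneg_left (min_le_right _ _) hCb.le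
      _ = ε / 2 := by field_simp
  have hκ' : 0 < l / A ^ 2 := by positivity
  have hκ'1 : l / A ^ 2 ≤ 1 := by
    rw [div_le_one (by positivity)]
    nlinarith
  obtain ⟨C₂, N₂, hC₂, -, hH⟩ := hHI8 (l / A ^ 2) (A ^ 2) hκ' hκ'1 (by nlinarith)
  obtain ⟨κ, hκ, hκ1, hκ2⟩ : ∃ κ : ℝ, 0 < κ ∧ κ ≤ 1 ∧ C₂ * A ^ 2 * κ ≤ ε / 2 := by
    refine ⟨min 1 (ε / 2 / (C₂ * A ^ 2)), lt_min one_pos (by positivity), min_le_left _ _, ?_⟩
    calc C₂ * A ^ 2 * min 1 (ε / 2 / (C₂ * A ^ 2)) ≤ C₂ * A ^ 2 * (ε / 2 / (C₂ * A ^ 2)) :=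
          mul_le_mul_of_nonneg_left (min_le_right _ _) (by positivity)
      _ = ε / 2 := by field_simp
  obtain ⟨C, N₃, hC, hT⟩ := hZTC
  obtain ⟨J, hJ⟩ := ZSW_pow C (ε / 2) (by linarith)
  obtain ⟨c, N₄, hc, hE⟩ := hEXC δ hδ (by linarith)
  obtain ⟨N₅, hN₅⟩ := Filter.eventually_atTop.mp
    ((tendsto_rpow_neg_atTop hc).eventually (eventually_le_nhds (show (0 : ℝ) < ε / 4 by linarith)))
  obtain ⟨N₆, hN₆⟩ := Filter.eventually_atTop.mp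
    ((tendsto_rpow_atTop (show (0 : ℝ) < 0.005 by norm_num)).eventually_ge_atTop ((2 : ℝ) ^ J))
  obtain ⟨N₇, hN₇⟩ := Filter.eventually_atTop.mp
    ((tendsto_rpow_neg_atTop (show (0 : ℝ) < δ₀ / 2 by linarith)).eventually (eventually_le_nhds hl))
  obtain ⟨N₈, hN₈⟩ := Filter.eventually_atTop.mp
    ((tendsto_rpow_atTop (show (0 : ℝ) < δ - δ / 200 by linarith)).eventually_ge_atTop A)
  refine ⟨κ, max 1 (max (max N₁ N₂) (max N₃ (max N₄ (max N₅ (max N₆ (max N₇ N₈)))))), hκ, ?_⟩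
  intro N Y hN hY hY'
  simp only [max_le_iff] at hN
  obtain ⟨hN1, ⟨m1, m2⟩, m3, m4, m5, m6, m7, m8⟩ := hN
  have hN0 : 0 < N := by linarith
  have hsN : (0 : ℝ) < √N := Real.sqrt_pos.mpr hN0
  have hY0 : 0 < Y := lt_of_lt_of_le (Real.rpow_pos_of_pos hN0 _) hY
  have hYN : 0 < Y * √N := by positivity
  have hYs : Y ≤ √N := hY'.trans (by nlinarith)
  rcases le_total (N ^ (1 / 2 - δ)) Y with h | h
  · have a1 := NR8_two hMU N A Y l b hA hl hY0 hb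
    have a2 : N ^ (1 / 2 - δ₀) ≤ l * Y := by
      calc N ^ (1 / 2 - δ₀) = N ^ (-(δ₀ / 2)) * N ^ (1 / 2 - δ₀ / 2) := by
            rw [← Real.rpow_add hN0]
            congr 1
            ring
        _ ≤ l * N ^ (1 / 2 - δ₀ / 2) := mul_le_mul_of_nonneg_right (hN₇ N m7) (Real.rpow_nonneg hN0.le _)
        _ ≤ l * N ^ (1 / 2 - δ) :=
            mul_le_mul_of_nonneg_left (Real.rpow_le_rpow_of_exponent_le hN1 (by linarith)) hl.le
        _ ≤ l * Y := mul_le_mul_of_nonneg_left h hl.le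
    have a3 : l * Y ≤ √N := by nlinarith
    have a4 := (hB' N (l * Y) m1 a2 a3).1
    have a5 : C₁ * ((b : ℝ) + 1) * (l * Y * √N) ≤ ε / 2 * (Y * √N) := by
      calc C₁ * ((b : ℝ) + 1) * (l * Y * √N) = C₁ * ((b : ℝ) + 1) * l * (Y * √N) := by ring
        _ ≤ ε / 2 * (Y * √N) := mul_le_mul_of_nonneg_right hl2 hYN.le
    have a6 : N ^ (0.49 : ℝ) ≤ A * Y := by
      calc N ^ (0.49 : ℝ) ≤ N ^ (1 / 2 - δ) := Real.rpow_le_rpow_of_exponent_le hN1 (by norm_num; linarith)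
        _ ≤ Y := h
        _ ≤ A * Y := le_mul_of_one_le_left hY0.le hA
    have a7 : (A * Y) ^ 2 ≤ A ^ 2 * N := by
      rw [mul_pow]
      apply mul_le_mul_of_nonneg_left _ (by positivity)
      calc Y ^ 2 ≤ (√N) ^ 2 := pow_le_pow_left₀ hY0.le hYs 2
        _ = N := Real.sq_sqrt hN0.le
    have a8 := hH N (A * Y) m2 a6 a7
    have a9 : C₂ * (A * Y) ^ 2 ≤ ε / 2 * (Y * √N) := by
      calc C₂ * (A * Y) ^ 2 = C₂ * A ^ 2 * (Y * Y) := by ring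
        _ ≤ C₂ * A ^ 2 * (Y * (κ * √N)) := by
            apply mul_le_mul_of_nonneg_left _ (by positivity)
            exact mul_le_mul_of_nonneg_left hY' hY0.le
        _ = C₂ * A ^ 2 * κ * (Y * √N) := by ring
        _ ≤ ε / 2 * (Y * √N) := mul_le_mul_of_nonneg_right hκ2 hYN.le
    linarith
  · have hAY : A * Y ≤ N ^ (1 / 2 - δ / 200) := by
      calc A * Y ≤ N ^ (δ - δ / 200) * N ^ (1 / 2 - δ) :=
            mul_le_mul (hN₈ N m8) h hY0.le (Real.rpow_nonneg hN0.le _)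
        _ = N ^ (1 / 2 - δ / 200) := by
            rw [← Real.rpow_add hN0]
            congr 1
            ring
    have hlow : ∀ j ≤ J, N ^ (0.395 : ℝ) ≤ Y / 2 ^ j := by
      intro j hj
      have h2j : (0 : ℝ) < 2 ^ j := by positivity
      rw [le_div_iff₀ h2j]
      calc N ^ (0.395 : ℝ) * 2 ^ j ≤ N ^ (0.395 : ℝ) * 2 ^ J :=
            mul_le_mul_of_nonneg_left (pow_le_pow_right₀ (by norm_num) hj) (Real.rpow_nonneg hN0.le _)
        _ ≤ N ^ (0.395 : ℝ) * N ^ (0.005 : ℝ) := mul_le_mul_of_nonneg_left (hN₆ N m6) (Real.rpow_nonneg hN0.le _)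
        _ = N ^ (2 / 5 : ℝ) := by
            rw [← Real.rpow_add hN0]
            norm_num
        _ ≤ Y := hY
    have e1 : ∑ j ∈ range J, ∑ D ∈ DN N, (cE D (Y / 2 ^ j) (N ^ (1 / 2 - δ / 200)) : ℝ) ≤ ε / 2 * (Y * √N) := by
      calc ∑ j ∈ range J, ∑ D ∈ DN N, (cE D (Y / 2 ^ j) (N ^ (1 / 2 - δ / 200)) : ℝ)
          ≤ ∑ j ∈ range J, (ε / 4 * (Y * √N)) * (1 / 2 ^ j) := by
            refine Finset.sum_le_sum fun j hj => ?_
            rw [Finset.mem_range] at hj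
            have h2j : (0 : ℝ) < 2 ^ j := by positivity
            have g1 : N ^ (0.39 : ℝ) ≤ Y / 2 ^ j :=
              (Real.rpow_le_rpow_of_exponent_le hN1 (by norm_num)).trans (hlow j hj.le)
            have g2 : Y / 2 ^ j ≤ N ^ (1 / 2 - δ) := (div_le_self hY0.le (one_le_pow₀ (by norm_num))).trans h
            refine (hE N (Y / 2 ^ j) m4 g1 g2).trans ?_
            calc N ^ (-c) * (Y / 2 ^ j * √N) ≤ ε / 4 * (Y / 2 ^ j * √N) :=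
                  mul_le_mul_of_nonneg_right (hN₅ N m5) (by positivity)
              _ = (ε / 4 * (Y * √N)) * (1 / 2 ^ j) := by
                  field_simp
        _ = (ε / 4 * (Y * √N)) * ∑ j ∈ range J, (1 : ℝ) / 2 ^ j := by rw [Finset.mul_sum]
        _ ≤ (ε / 4 * (Y * √N)) * 2 := mul_le_mul_of_nonneg_left (ZL_geo J) (by positivity)
        _ = ε / 2 * (Y * √N) := by ring
    have e2 : TD7 (fC (Y / 2 ^ J)) N ≤ ε / 2 * (Y * √N) := by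
      have g2 : Y / 2 ^ J ≤ √N := (div_le_self hY0.le (one_le_pow₀ (by norm_num))).trans hYs
      refine (hT N (Y / 2 ^ J) m3 (hlow J le_rfl) g2).trans ?_
      calc C * (Y / 2 ^ J * √N) = C / 2 ^ J * (Y * √N) := by ring
        _ ≤ ε / 2 * (Y * √N) := mul_le_mul_of_nonneg_right hJ hYN.le
    have e3 := NR8_sum hMU N A Y (N ^ (1 / 2 - δ / 200)) hA hAY hY0 J
    linarith

end Pool.Agent.T8
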