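import Pool.Agent.helper82.T6.All
import Pool.Agent.helper3.T5.AllA
import Pool.Agent.helper88.T7.Final8
import Pool.Agent.helper87.T8.GE8
import Pool.Agent.helper34.T8.CV8
import Pool.Agent.helper18.T8.WP8
import Pool.Agent.helper75.T8.WB8
import Pool.Agent.helper88.T8.NA8
import Pool.Agent.helper88.T8.NB8
import Pool.Agent.helper88.T8.GM8
import Pool.Agent.helper66.T8.WG8
import Pool.Agent.helper34.T8.WT8
import Pool.Agent.helper25.T8.SX8
import Pool.Agent.helper4.T8.WA8
import Pool.Agent.helper78.T8.TN8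
import Pool.Agent.helper25.T8.TG8
import Pool.Agent.helper72.T8.TE8
import Pool.Agent.helper51.T8.TF8
import Pool.Agent.helper97.T8.AC8
import Pool.Agent.helper6.T8.RA8
import Pool.Agent.helper97.T8.RC8
import Pool.Agent.helper58.T8.RN8
import Pool.Agent.helper26.T8.HJ8
import Pool.Agent.helper88.T8.HI8
import Pool.Agent.helper88.T8.NR8
import Pool.Agent.helper27.T8.FN8
import Pool.Agent.helper88.T8.Fin8

set_option autoImplicit false

/-!
# T8 (MP_16912e_nt): everything together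

`final9`: the Cohen-Lenstra constant for all classes of order 5 with an ideal of norm at most `κ √N`.
-/

namespace Pool.Agent.T8

open Finset NumberField Pool.Agent.helper3.FT Pool.Agent.helper47.RA Pool.Agent.T5 Pool.Agent.T6 Pool.Agent.T7

/-! block W8 -/

theorem aCV8 : CV8_stmt := CV8 GE8

theorem aWP8 : WP8_stmt := WP8 WCLm WFJ WWY

theorem aWB8 : WB8_stmt := WB8 allLFS aWP8 allWNR allWSM WDL

theorem aWG8 : WG8_stmt := WG8 aCV8 aWB8 NA8 NB8 GM8

theorem aWA8 : WA8_stmt := WA8 aWG8 (WT8 aWB8) SX8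

/-! block C8 -/

theorem aTG8 : TG8_stmt := TG8 (TGM TGL) TCH TSP TNA TNB TN8

theorem aTF8 : TF8_stmt := TF8 aWA8 aTG8 (TE8 TEA) allLOCA allLOCB

/-! block U8 -/

/-- **the new bound**: the classes of order 5 with `κ Y ≤ μ(c), μ(c²) ≤ Y` -/
theorem aHI8 : HI8_stmt := HI8 (AC8 zMU) (RN8 RA8 RC8) (HJ8 all_ALG aTF8)

/-! block F8 -/

theorem aNR8 : NR8_stmt := NR8 zMU zNB (EXC_of allBC) (zTC allSLU7) aHI8

theorem aFN8 : FN8_stmt := FN8 ZDY (zFN allSLU7 finSLL7) aNR8 (zTT allSLU7)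

/-- **T8**: the clean asymptotic -/
theorem final9 : CLN8_stmt := CLN8_of allUB aFN8

end Pool.Agent.T8
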