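import Pool.Agent.helper82.T6.SpecW
import Pool.Agent.helper8.T6.SpecC2
import Pool.Agent.helper3.T6.SpecH
import Pool.Agent.helper88.T7.SpecR7

set_option autoImplicit false

/-!
# T8 (MP_16912e_nt): the clean asymptotic at the critical scale (no condition on `μ(c²)`)

TARGET. For every `ε > 0` there are `κ, N₀`: for `N ≥ N₀`, `N ^ (2/5) ≤ Y ≤ κ √N` the number of the pairs `(D, c)`, `-N ≤ D < 0` fundamental, `c` of order 5, `μ(c) ≤ Y`, is `(36/π³ + O(ε)) Y √N`.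
T7 has this for the classes with `μ(c), μ(c²)` differing by a factor more than `A`. New: `#{(D, c) : κ Y ≤ μ(c), μ(c²) ≤ Y} ≤ C(κ) Y²` for `N ^ 0.49 ≤ Y ≤ √(A N)` (row HI8), by ONE tuple per class (the shortest vector of `a²`), at all angles and all conductors `d = gcd (n, k)`.

RULES. Row `t8:XXX` is a file `Pool/Agent/<seat>/T8/XXX.lean`: `import Pool.Agent.helper88.T8.Spec`, `set_option autoImplicit false`, `namespace Pool.Agent.T8`,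
`open Finset NumberField Pool.Agent.helper3.FT Pool.Agent.helper47.RA Pool.Agent.T5 Pool.Agent.T6 Pool.Agent.T7`, `open scoped nonZeroDivisors`, and `theorem XXX (h : ..) .. : XXX_stmt`, whose EXACT line is in the lock note (other statements only as hypotheses; an
unused hypothesis may stay). Auxiliary lemmas are prefixed `XXX_`. No `convert`, `congr!`, `native_decide`, no double quotes. A row may import the file of a finished row named in its docstring as a model and cite its auxiliary lemmas.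

NOTATION in the proofs: a tuple `t = ((n, k), (m, g, Z))`, `Λ = lam t`, `Δ = -dis t`, `E = er es`, `n₀ = Y √Y / √N` (so `n, k ≤ 3 n₀ / d` for a tuple of discriminant about `N d²`).
`TR : TR_stmt` (Pool/Agent/helper11/T5/TR.lean): `Λ n² = m g + Z k²`, `Δ (n k)² = 4 Z² Λ k² - (Z g - Λ m)² = 4 Z Λ² n² - (Z g + Λ m)²`. `SZ : SZ_stmt` (helper95/T5/SpecE.lean; see where it is proved): `n √Δ ≤ 2 Z √Λ`, `k √Δ ≤ 2 √Z Λ`, `|m| ≤ √Z n + (Z/√Λ) k`, `|g| ≤ (Λ/√Z) n + √Λ k`.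
`SWP : SWP_stmt`: the symmetric tuple `swp t = ((k, n), (g, -m, Λ))`.
-/

namespace Pool.Agent.T8

open Finset NumberField Pool.Agent.helper3.FT Pool.Agent.helper47.RA Pool.Agent.T5 Pool.Agent.T6 Pool.Agent.T7
open scoped nonZeroDivisors

/-! ## Definitions -/

/-- the tuples with `Z, Λ ∈ [κ Y, Y]` and `-dis ∈ (N / 2, N]` (all angles) -/
structure Ce (κ N Y : ℝ) (t : Tpl) : Prop where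
  tt : IsT t
  z1 : κ * Y ≤ t.2.2.2
  z2 : (t.2.2.2 : ℝ) ≤ Y
  l1 : κ * Y ≤ lam t
  l2 : (lam t : ℝ) ≤ Y
  d1 : N / 2 < -(dis t : ℝ)
  d2 : -(dis t : ℝ) ≤ N

/-- admissible moduli for the conductor `d` -/
structure Md (d er es y : ℕ) : Prop where
  d1 : 1 ≤ d
  r1 : 1 ≤ er
  s1 : 1 ≤ es
  co : Nat.Coprime er es
  rs : er * es ≤ d
  rsy : er ^ 2 * es * y ≤ d ^ 2
  sq : Squarefree y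
  ys : y ∣ es

/-- upper bound `C ^ (ω(y) + 1) (s / y) W` for the number of the tuples with the property `P` in given classes -/
def UBd (κ N Y : ℝ) (d er es y : ℕ) (C W : ℝ) (P : Tpl → Prop) : Prop :=
  ∀ (s : ℝ) (S : ℕ × ℕ → Finset Cls), (∀ p, ((S p).card : ℝ) ≤ s) →
    ∀ F : Finset Tpl, (∀ t ∈ F, Ce κ (N * (d : ℝ) ^ 2) Y t ∧ P t ∧ y ∣ t.1.1 * t.1.2 ∧
      Nat.Coprime (t.1.1 * t.1.2) er ∧ ∃ x ∈ S t.1, InC er es x t) →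
    (F.card : ℝ) ≤ C ^ (y.primeFactors.card + 1) * (s / y) * W

/-! ## Block W8: Weyl sums at all angles -/

/-- **GE8** (short-medium; from TR). The position of `(m, g)` for given `n, k, Z, Λ`.
PROOF. `S = √Z`, `P = √Λ`, `A = Z g + Λ m`, `B = Z g - Λ m`. TR: `A² = (2 S Λ n)² - (n k)² Δ`, `B² = (2 Z P k)² - (n k)² Δ`. Let `s₁` be the sign of `A` (`1` if `A = 0`), `s₂` the sign of `B`. `2 S Λ n - |A| = (n k)² Δ / (2 S Λ n + |A|) ≤ n k² Δ / (2 S Λ)`, so `|A - s₁ 2 S Λ n| ≤ n k² Δ / (2 S Λ)`;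
in the same way `|B - s₂ 2 Z P k| ≤ n² k Δ / (2 Z P)`. `m = (A - B) / (2 Λ)`, `g = (A + B) / (2 Z)`; `2 S Λ n / (2 Λ) = S n`, `2 Z P k / (2 Λ) = (Z / P) k`, `2 S Λ n / (2 Z) = (Λ / S) n`, `2 Z P k / (2 Z) = P k`. -/
def GE8_stmt : Prop :=
  ∀ t : Tpl, IsT t → 0 < t.2.2.2 → 0 < lam t → dis t < 0 →
    ∃ s₁ s₂ : ℝ, (s₁ = 1 ∨ s₁ = -1) ∧ (s₂ = 1 ∨ s₂ = -1) ∧
      |(t.2.1 : ℝ) - (s₁ * (√(t.2.2.2 : ℝ) * t.1.1) - s₂ * (t.2.2.2 / √(lam t : ℝ) * t.1.2))| ≤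
        t.1.1 * t.1.2 * (-(dis t : ℝ)) / (4 * lam t) *
          (t.1.2 / (√(t.2.2.2 : ℝ) * lam t) + t.1.1 / (t.2.2.2 * √(lam t : ℝ))) ∧
      |(t.2.2.1 : ℝ) - (s₁ * (lam t / √(t.2.2.2 : ℝ) * t.1.1) + s₂ * (√(lam t : ℝ) * t.1.2))| ≤
        t.1.1 * t.1.2 * (-(dis t : ℝ)) / (4 * t.2.2.2) *
          (t.1.2 / (√(t.2.2.2 : ℝ) * lam t) + t.1.1 / (t.2.2.2 * √(lam t : ℝ)))

/-- **CV8** (medium; from GE8). Covering of the `(m, g, Z)` of one pair `(n, k)` by `C / μ²` boxes of relative size `μ`.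
PROOF. `J = ⌈1/μ⌉₊ ≤ 2/μ`. For `s₁, s₂ ∈ {1, -1}`, `i, j < J` put `z = (i+1) μ Y`, `l = (j+1) μ Y` and `c = (s₁ √z n - s₂ (z/√l) k, s₁ (l/√z) n + s₂ √l k, i μ Y)`; `B` = all these `c`: at most `4 J² ≤ 16/μ²`. For `t`: `i` with `i μ Y < Z ≤ (i+1) μ Y` (`i = ⌈Z/(μ Y)⌉ - 1`, `0 < Z ≤ Y`, so `i < J`), `j` in the same way for `Λ`;
`s₁, s₂` from GE8. Then `κ Y ≤ Z ≤ z ≤ 2 Y` (`z < Z + μ Y`), `0 ≤ z - Z ≤ μ Y`, the same for `Λ, l`. `|√z - √Z| ≤ (z - Z)/√Z ≤ μ √Y/√κ`; `|z/√l - Z/√Λ| ≤ (z - Z)/√l + Z (√l - √Λ)/(√l √Λ) ≤ μ √Y/√κ + μ √Y κ^(-3/2)`; the same for `l/√z - Λ/√Z` and `√l - √Λ`. The error of GE8: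
`n k N/(4 κ Y) · (n + k) (κ Y)^(-3/2) ≤ 9 μ κ^(-5/2) √Y (n + k)`. So `C = 16 + 12 κ^(-5/2)`. -/
def CV8_stmt : Prop :=
  ∀ κ : ℝ, 0 < κ → κ ≤ 1 → ∃ C : ℝ, 1 ≤ C ∧ ∀ (N Y μ : ℝ) (n k : ℕ), 0 < N → 0 < Y → 0 < μ → μ ≤ 1 → 1 ≤ n → 1 ≤ k →
    (n : ℝ) * k * N ≤ 36 * μ * Y ^ 3 →
    ∃ B : Finset (ℝ × ℝ × ℝ), (B.card : ℝ) ≤ C / μ ^ 2 ∧ ∀ t : Tpl, Ce κ N Y t → t.1 = (n, k) →
      ∃ c ∈ B, |(t.2.1 : ℝ) - c.1| ≤ C * μ * (((n : ℝ) + k) * √Y) ∧ |(t.2.2.1 : ℝ) - c.2.1| ≤ C * μ * (((n : ℝ) + k) * √Y) ∧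
        c.2.2 < t.2.2.2 ∧ (t.2.2.2 : ℝ) ≤ c.2.2 + μ * Y

/-- **WP8** (medium; from WCL, WFJ, WWY of T6; model: Pool/Agent/helper72/T6/WPC.lean). Count for one pair, one class and one box with centre `(a, b)`; for `T = 1` the trivial count.
PROOF. `E = er es`. WCL: `m = m₀ + E m'`, `g = g₀ + E g'`, `0 ≤ m₀, g₀ < E`, and `Z/Q = (es/q)(α m'² + β m' g' + γ g'²) + c₃ m' + c₄ g' + c₅ + z'`, `Q = n³ k es er²`. Let `a₀, b₀` be the integers nearest to `(a - m₀)/E`, `(b - g₀)/E`, `m' = a₀ + m''`, `g' = b₀ + g''`: `|m''| ≤ |m - a|/E + 1/2 ≤ L`, the same for `g''`.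
Substituting, `Z/Q` is the same quadratic form in `(m'', g'')` plus other linear terms. CASE `4 T V ≤ Q`: exactly as in WPC with `L' = L`: `≤ C₀/T (L² + L ∑_h √near)`. CASE `T = 1`: `t ↦ (m'', g'')` has at most `(2 L + 1)² ≤ 9 L²` values, and for a given value the numbers `Z` of `F` differ by multiples of `Q` and lie in `(z₀, z₀ + V]`: at most `V/Q + 1`. -/
def WP8_stmt : Prop :=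
  ∃ C : ℝ, 1 ≤ C ∧ ∀ (n k er es : ℕ), 1 ≤ n → 1 ≤ k → 1 ≤ er → 1 ≤ es → Nat.Coprime n k → Nat.Coprime er es → Nat.Coprime (n * k) er →
    ∃ α β γ : ℤ, ResG n k 1 1 1 1 α β γ ∧ ∀ (x : Cls) (L T : ℕ) (a b z₀ V : ℝ) (F : Finset Tpl), 1 ≤ L → 1 ≤ T → 0 < V →
      (T = 1 ∨ 4 * T * V ≤ (n : ℝ) ^ 3 * k * es * (er : ℝ) ^ 2) → (∀ t ∈ F, IsT t ∧ t.1 = (n, k) ∧ InC er es x t ∧
        |(t.2.1 : ℝ) - a| + 3 * (er * es) ≤ er * es * (L : ℝ) ∧ |(t.2.2.1 : ℝ) - b| + 3 * (er * es) ≤ er * es * (L : ℝ) ∧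
        z₀ < t.2.2.2 ∧ (t.2.2.2 : ℝ) ≤ z₀ + V) →
      (F.card : ℝ) ≤ C * (L : ℝ) ^ 2 * (V / ((n : ℝ) ^ 3 * k * es * (er : ℝ) ^ 2) + 1 / T) +
        C * L / T * ∑ h ∈ Ico 1 T, √((nearPts L L ((h * es : ℕ) * α / ((n : ℝ) ^ 3 * k)) ((h * es : ℕ) * β / ((n : ℝ) ^ 3 * k))
          ((h * es : ℕ) * γ / ((n : ℝ) ^ 3 * k))).card : ℝ)

open Classical in
/-- **WB8** (medium-long; from `LFS_stmt`, WP8, WNR, WSM, WDL of T6, `pairs_card`; model: Pool/Agent/helper18/T6/WPR.lean). One block of pairs, with a set of at most `J` boxes for every pair; `b = 1` everywhere.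
PROOF. `F` is covered by the fibres for `p ∈ pairs N K y`, `x ∈ S p`, `c ∈ B p` (`s J` of them for each `p`). WP8 for every fibre (`a = c.1`, `b = c.2.1`, `z₀ = c.2.2`; `N < 2 n`, `K < 2 k`, so `n³ k ≥ N³ K/16` and `64 T V ≤ Q` gives `4 T V ≤ n³ k es er²`; `V/(n³ k es er²) ≤ 16 V/Q`). If `T = 1` the sum over `h` is empty.
Otherwise, for `h < T`: WNR for the frequency `h es`, `M = G = L`, `b = 1`, `δ = dl y₀ h (n k)`, `r = rt δ n k` (see `WPR_near` in the model): the four size hypotheses follow from the two inequalities for `ρ` (the first is weaker than the second, `N³/L ≤ ρ`). `√near ≤ 484 (1 + (ρ/lamb 1 δ r)^(3/2))` (`WPR_sq`).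
`∑_p 1 ≤ 2^ω N K/y` (`pairs_card`), `∑_{p, h} (1/lamb)^(3/2) ≤ C_S^(ω+1) (T^(5/4) + (N K/y) T^(1/4)) · 2` (WSM with `b = 1`), and `ρ^(3/2) (1/T) (T^(5/4) + (N K/y) T^(1/4)) = (N K/y) ρ^(3/2) T^(-3/4) (1 + T y/(N K))`. -/
def WB8_stmt : Prop :=
  ∃ C : ℝ, 1 ≤ C ∧ ∀ (N K L T er es y : ℕ) (V ρ s J : ℝ), 1 ≤ N → 1 ≤ K → 1 ≤ L → 1 ≤ T → 1 ≤ er → 1 ≤ es →
    Nat.Coprime er es → Squarefree y → y ∣ es → 0 < V → 0 ≤ ρ →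
    (T = 1 ∨ (64 * T * V ≤ (N : ℝ) ^ 3 * K * es * (er : ℝ) ^ 2 ∧
      32 * ((T : ℝ) * es) * L / (N : ℝ) ^ 3 + 2 * (N : ℝ) ^ 2 * K / L + (K : ℝ) ^ 3 / L ≤ ρ ∧
      4 * (N : ℝ) / K * (32 * ((T : ℝ) * es) * L / (N : ℝ) ^ 3 + 2 * (N : ℝ) ^ 2 * K / L + (K : ℝ) ^ 3 / L) +
        5 * (N : ℝ) ^ 3 / L ≤ ρ)) →
    ∀ S : ℕ × ℕ → Finset Cls, (∀ p, ((S p).card : ℝ) ≤ s) →
    ∀ B : ℕ × ℕ → Finset (ℝ × ℝ × ℝ), (∀ p, ((B p).card : ℝ) ≤ J) → ∀ F : Finset Tpl,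
    (∀ t ∈ F, IsT t ∧ t.1 ∈ pairs N K y ∧ Nat.Coprime (t.1.1 * t.1.2) er ∧ (∃ x ∈ S t.1, InC er es x t) ∧
      ∃ c ∈ B t.1, |(t.2.1 : ℝ) - c.1| + 3 * (er * es) ≤ er * es * (L : ℝ) ∧
        |(t.2.2.1 : ℝ) - c.2.1| + 3 * (er * es) ≤ er * es * (L : ℝ) ∧ c.2.2 < t.2.2.2 ∧ (t.2.2.2 : ℝ) ≤ c.2.2 + V) →
    (F.card : ℝ) ≤ C ^ (y.primeFactors.card + 1) * s * J * (N * K / y) *
      ((L : ℝ) ^ 2 * (V / ((N : ℝ) ^ 3 * K * es * (er : ℝ) ^ 2) + 1 / T) +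
        L * (1 + ρ ^ (3 / 2 : ℝ) * (T : ℝ) ^ (-(3 / 4) : ℝ) * (1 + T * y / (N * K))))

/-- **NA8** (medium, numerical). The choice of `L, T, ρ` in one block (`k ≤ 2 n`), `μ = v^(1/44)`, `v = K₁ d √N/(6 Y √Y) ≤ 1`.
PROOF. `E = er es ≤ d ≤ N^0.19`, `Q = N₁³ K₁ es er²`. `v ≥ √N/(6 Y √Y) ≥ N^(-1/4)/(6 A)` (`Y √Y ≤ A N^(3/4)`), so `μ ≥ N^(-0.006)` and `μ N₁ √Y/E ≥ N^(-0.006 + 0.245 - 0.19) ≥ 4` for `N ≥ N₀`. `L = ⌈C₁ μ (N₁ + K₁) √Y/E⌉₊ + 3`: `E L ≥ C₁ μ (N₁ + K₁) √Y + 3 E`, `L ≤ 3 C₁ μ N₁ √Y/E + 4 ≤ 4 C₁ μ N₁ √Y/E` (`K₁ ≤ 2 N₁`), `L E ≥ μ N₁ √Y`.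
If `Q < 128 μ Y`: `T = 1`, `ρ = 0` (`1/T = 1 ≤ 128 μ Y/Q`). Otherwise `T = ⌊Q/(64 μ Y)⌋₊ ≥ 2`, `T ≥ Q/(128 μ Y)`, `64 T μ Y ≤ Q`, `ρ = (8 C₁ + 29) N₁² E/(μ √Y)`: `32 T es L/N₁³ ≤ 32 (Q/(64 μ Y)) es (4 C₁ μ N₁ √Y/E)/N₁³ = 2 C₁ K₁ N₁ E/√Y` (`es² er² = E²`),
`2 N₁² K₁/L ≤ 2 N₁ K₁ E/(μ √Y)`, `K₁³/L ≤ 4 N₁ K₁ E/(μ √Y)` (`K₁² ≤ 4 N₁²`); sum `≤ (2 C₁ + 6) N₁ K₁ E/(μ √Y) ≤ 2 (2 C₁ + 6) N₁² E/(μ √Y) ≤ ρ` (`μ ≤ 1`); times `4 N₁/K₁` plus `5 N₁³/L ≤ 5 N₁² E/(μ √Y)`: at most `(8 C₁ + 29) N₁² E/(μ √Y) = ρ`. -/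
def NA8_stmt : Prop :=
  ∀ C₁ A : ℝ, 1 ≤ C₁ → 1 ≤ A → ∃ C₂ N₀ : ℝ, 1 ≤ C₂ ∧ 1 ≤ N₀ ∧ ∀ N Y : ℝ, N₀ ≤ N → N ^ (0.49 : ℝ) ≤ Y → Y ^ 2 ≤ A * N →
    ∀ d er es N₁ K₁ : ℕ, 1 ≤ d → (d : ℝ) ≤ N ^ (0.19 : ℝ) → 1 ≤ er → 1 ≤ es → er * es ≤ d →
    1 ≤ N₁ → 1 ≤ K₁ → K₁ ≤ 2 * N₁ → (K₁ : ℝ) * d * √N ≤ 6 * (Y * √Y) →
    ∀ μ : ℝ, μ = (K₁ * d * √N / (6 * (Y * √Y))) ^ (1 / 44 : ℝ) →
    ∃ (L T : ℕ) (ρ : ℝ), 1 ≤ L ∧ 1 ≤ T ∧ 0 ≤ ρ ∧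
      C₁ * μ * (((N₁ : ℝ) + K₁) * √Y) + 3 * (er * es) ≤ er * es * (L : ℝ) ∧
      (T = 1 ∨ (64 * T * (μ * Y) ≤ (N₁ : ℝ) ^ 3 * K₁ * es * (er : ℝ) ^ 2 ∧
        32 * ((T : ℝ) * es) * L / (N₁ : ℝ) ^ 3 + 2 * (N₁ : ℝ) ^ 2 * K₁ / L + (K₁ : ℝ) ^ 3 / L ≤ ρ ∧
        4 * (N₁ : ℝ) / K₁ * (32 * ((T : ℝ) * es) * L / (N₁ : ℝ) ^ 3 + 2 * (N₁ : ℝ) ^ 2 * K₁ / L + (K₁ : ℝ) ^ 3 / L) +
          5 * (N₁ : ℝ) ^ 3 / L ≤ ρ)) ∧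
      (L : ℝ) * (er * es) ≤ C₂ * (μ * N₁ * √Y) ∧
      1 / (T : ℝ) ≤ 128 * (μ * Y) / ((N₁ : ℝ) ^ 3 * K₁ * es * (er : ℝ) ^ 2) ∧
      (T = 1 ∧ ρ = 0 ∨ (64 * T * (μ * Y) ≤ (N₁ : ℝ) ^ 3 * K₁ * es * (er : ℝ) ^ 2 ∧ ρ ≤ C₂ * ((N₁ : ℝ) ^ 2 * (er * es) / (μ * √Y))))

/-- **NB8** (medium, numerical). The final inequality for one block.
PROOF. `E = er es ≤ d`, `Q = N₁³ K₁ es er²`, `u, v ≤ 1`, `v ≤ 2 u`, `N₁ = 6 u Y √Y/(d √N)`, `K₁ = 6 v Y √Y/(d √N)`, `(Y √Y/√N)³ √Y = Y² (Y²/N)^(3/2) ≤ A² Y²`. `μ = v^(1/44) ≤ 2 (u v)^(1/88)`.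
(i) `L² (μ Y/Q + 1/T) ≤ (C₂ μ N₁ √Y/E)² 129 μ Y/Q`; times `(C₁/μ²) (N₁ K₁/y)`: `C μ Y²/(y E² es er²) = C μ Y²/(y er⁴ es³)`.
(ii) `(C₁/μ²) (N₁ K₁/y) L ≤ C N₁² K₁ √Y/(μ y E) ≤ C A² u² v μ⁻¹ Y²/(y E d³)`, and `v μ⁻¹ = v^(43/44) ≤ v^(1/44)`, `E d³ ≥ E⁴ ≥ er⁴ es³`.
(iii) (`ρ ≠ 0`) `T y/(N₁ K₁) ≤ Q y/(64 μ Y N₁ K₁) = N₁² es er² y/(64 μ Y) ≤ N₁² d²/(64 μ Y) ≤ A/μ`, so `1 + T y/(N₁ K₁) ≤ 2 A/μ`; `T^(-3/4) ≤ (128 μ Y/Q)^(3/4)`; `L ρ^(3/2) T^(-3/4) (2 A/μ) ≤ C (μ N₁ √Y/E) (N₁² E/(μ √Y))^(3/2) (μ Y/Q)^(3/4)/μ = C N₁^(7/4) K₁^(-3/4) √Y er⁻¹ es^(-1/4) μ^(-3/4)`;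
times `(C₁/μ²) (N₁ K₁/y)`: `C N₁^(11/4) K₁^(1/4) √Y er⁻¹ es^(-1/4) μ^(-11/4)/y ≤ C u^(11/4) v^(1/4) v^(-1/16) Y²/(y d³ er es^(1/4)) ≤ C v^(3/16) Y²/(y er⁴ es³)`. In all cases a power of `v` at least `v^(1/44) ≤ 2 (u v)^(1/88)`. -/
def NB8_stmt : Prop :=
  ∀ C₁ C₂ A : ℝ, 1 ≤ C₁ → 1 ≤ C₂ → 1 ≤ A → ∃ C : ℝ, 1 ≤ C ∧ ∀ N Y : ℝ, 1 ≤ N → 1 ≤ Y → Y ^ 2 ≤ A * N →
    ∀ d er es y N₁ K₁ : ℕ, 1 ≤ d → 1 ≤ er → 1 ≤ es → 1 ≤ y → er * es ≤ d → er ^ 2 * es * y ≤ d ^ 2 →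
    1 ≤ N₁ → 1 ≤ K₁ → K₁ ≤ 2 * N₁ → (N₁ : ℝ) * d * √N ≤ 6 * (Y * √Y) → (K₁ : ℝ) * d * √N ≤ 6 * (Y * √Y) →
    ∀ μ : ℝ, μ = (K₁ * d * √N / (6 * (Y * √Y))) ^ (1 / 44 : ℝ) →
    ∀ (L T : ℕ) (ρ : ℝ), 1 ≤ L → 1 ≤ T → 0 ≤ ρ → (L : ℝ) * (er * es) ≤ C₂ * (μ * N₁ * √Y) →
      1 / (T : ℝ) ≤ 128 * (μ * Y) / ((N₁ : ℝ) ^ 3 * K₁ * es * (er : ℝ) ^ 2) →
      (T = 1 ∧ ρ = 0 ∨ (64 * T * (μ * Y) ≤ (N₁ : ℝ) ^ 3 * K₁ * es * (er : ℝ) ^ 2 ∧ ρ ≤ C₂ * ((N₁ : ℝ) ^ 2 * (er * es) / (μ * √Y)))) →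
      C₁ / μ ^ 2 * (N₁ * K₁ / y) * ((L : ℝ) ^ 2 * (μ * Y / ((N₁ : ℝ) ^ 3 * K₁ * es * (er : ℝ) ^ 2) + 1 / T) +
        L * (1 + ρ ^ (3 / 2 : ℝ) * (T : ℝ) ^ (-(3 / 4) : ℝ) * (1 + T * y / (N₁ * K₁)))) ≤
      C * ((N₁ * d * √N / (6 * (Y * √Y))) * (K₁ * d * √N / (6 * (Y * √Y)))) ^ (1 / 88 : ℝ) *
        (Y ^ 2 / y / ((er : ℝ) ^ 4 * (es : ℝ) ^ 3))

/-- **GM8** (short). A geometric sum.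
PROOF. Let `i₀` be the largest element of `I`; `2^i x ≤ 2^(i - i₀)`; `∑_{l ≥ 0} 2^(-c l) = 1/(1 - 2^(-c))`. -/
def GM8_stmt : Prop := ∀ c : ℝ, 0 < c → ∃ C : ℝ, 1 ≤ C ∧ ∀ (x : ℝ) (I : Finset ℕ), 0 < x → (∀ i ∈ I, (2 : ℝ) ^ i * x ≤ 1) →
  ∑ i ∈ I, ((2 : ℝ) ^ i * x) ^ c ≤ C

/-- **WG8** (medium; from CV8, WB8, NA8, NB8, GM8, SZ). Weyl bound for the tuples with `k ≤ n`, `d ≤ N^0.19`.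
PROOF. `C₁` from CV8 (for `κ`), `C₂, N₀` from NA8, `C₃` from NB8, `C₄` from WB8. For `t ∈ F` let `N₁ = 2^i`, `K₁ = 2^j` with `N₁/2 < n ≤ N₁`, `K₁/2 < k ≤ K₁`; `K₁ < 2 k ≤ 2 n ≤ 2 N₁`. SZ: `n √Δ ≤ 2 Z √Λ ≤ 2 Y √Y`, `Δ > N d²/2`, so `N₁ d √N < 2 n d √N ≤ 4 √2 Y √Y ≤ 6 Y √Y`, the same for `K₁`. The set `F_{ij}` of these `t`:
`μ = v^(1/44)`, `v = K₁ d √N/(6 Y √Y) ≤ 1`, `v ≤ μ ≤ 1`; CV8 at the scale `N d²`: `n k N d² ≤ (N₁ d √N) (K₁ d √N) ≤ 36 v Y³ ≤ 36 μ Y³`: boxes `B p`, `card ≤ C₁/μ² =: J`, half sides `C₁ μ (n + k) √Y ≤ C₁ μ (N₁ + K₁) √Y`. NA8: `L, T, ρ`. WB8 with `V = μ Y`, NB8: `#F_{ij} ≤ C₄^(ω+1) s C₃ (u_i v_j)^(1/88) (Y²/y)/(er⁴ es³)`.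
`u_i = 2^i (d √N/(6 Y √Y)) ≤ 1`, `v_j` likewise; sum over `(i, j)`: GM8 twice (`c = 1/88`). (If `F` is empty: trivial, `0 ≤ s`.) -/
def WG8_stmt : Prop :=
  ∀ κ A : ℝ, 0 < κ → κ ≤ 1 → 1 ≤ A → ∃ C N₀ : ℝ, 1 ≤ C ∧ 1 ≤ N₀ ∧ ∀ N Y : ℝ, N₀ ≤ N → N ^ (0.49 : ℝ) ≤ Y → Y ^ 2 ≤ A * N →
    ∀ d er es y : ℕ, Md d er es y → (d : ℝ) ≤ N ^ (0.19 : ℝ) →
    UBd κ N Y d er es y C (Y ^ 2 / ((er : ℝ) ^ 4 * (es : ℝ) ^ 3)) (fun t => t.1.2 ≤ t.1.1)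

/-- **WT8** (medium; from WB8, SZ). Trivial bound for the tuples with `k ≤ n`, all `d`.
PROOF. Blocks `F_{ij}` as in WG8. One box `c = (0, 0, 0)` for every pair (`J = 1`), `V = Y`, `T = 1`, `ρ = 0`. SZ: `|m| ≤ √Y n + (Y/√(κ Y)) k ≤ 2 N₁ √(Y/κ)` (`k ≤ n ≤ N₁`), the same for `g` (`Λ/√Z ≤ √(Y/κ)`). `L = ⌈2 N₁ √(Y/κ)/E⌉₊ + 3`. `E ≤ d ≤ 6 Y √Y/(N₁ √N)`, so `N₁ √Y/E ≥ N₁² √N/(6 Y) ≥ 1/(6 √A)`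
and `L ≤ C N₁ √Y/E`. WB8: `C₄^(ω+1) s (N₁ K₁/y) (L² (Y/Q + 1) + L) ≤ C₄^(ω+1) (s/y) N₁ K₁ · 2 L² (Y/Q + 1)`, `K₁ ≤ 2 N₁`, `N₁ K₁ L² Y/Q ≤ C N₁ K₁ N₁² Y²/(E² N₁³ K₁ es er²) = C Y²/(er⁴ es³)`, `N₁ K₁ L² ≤ C N₁⁴ Y/E² ≤ C (6 Y √Y/(d √N))⁴ Y/E² = C Y⁷/(N² d⁴ er² es²)`.
The number of blocks `(i, j)` with `2^i, 2^j ≤ 6 Y √Y/√N ≤ 6 A N` is at most `C (log N)²` (`N` large). -/
def WT8_stmt : Prop :=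
  ∀ κ A : ℝ, 0 < κ → κ ≤ 1 → 1 ≤ A → ∃ C N₀ : ℝ, 1 ≤ C ∧ 1 ≤ N₀ ∧ ∀ N Y : ℝ, N₀ ≤ N → N ^ (0.49 : ℝ) ≤ Y → Y ^ 2 ≤ A * N →
    ∀ d er es y : ℕ, Md d er es y →
    UBd κ N Y d er es y C (Real.log N ^ 2 * (Y ^ 2 / ((er : ℝ) ^ 4 * (es : ℝ) ^ 3) +
      Y ^ 7 / (N ^ 2 * (d : ℝ) ^ 4) / ((er : ℝ) ^ 2 * (es : ℝ) ^ 2))) (fun t => t.1.2 ≤ t.1.1)

/-- **SX8** (medium; from TR, SWP). The symmetric tuples of a class lie in one class.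
PROOF. If no `t` with `IsT t`, `t.1 = (n, k)`, `InC er es x t` exists, any `x'` will do. Otherwise fix one, `t₀`. `x'.m = x.g`, `x'.g = -x.m`, `x'.c = RR (swp t₀) = -RR' t₀`, `x'.c' = RR' (swp t₀) = -RR t₀` (SWP for `swp t₀`: `swp (swp t) = ((n, k), (-m, -g, Z))` and `RR` of it is `RR t`).
(a) `e1 es k ∣ RR' t - RR' t₀`: for a prime `p ∤ k`, `p^a ∥ es`: if `p ∣ n`: `p^a ∣ e2 es n`, `hc'` for `t, t₀`. If `p ∤ n`: `p^a ∣ e1 es n`: `R ≡ R₀`, `m ≡ m₀`, `g ≡ g₀` modulo `p^a`, `n² Z = m² + k R`, `n² Λ = m g + Z k²`, `n R' = g² - Λ k²` give `R' ≡ R'₀` (`n` is a unit). (b) `e2 es k ∣ RR t - RR t₀`: the primes `p ∣ k` do not divide `n`: `e2 es k ∣ e1 es n`.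
(c) modulo `er²` (`i n² ≡ 1`): `er ∣ m - x.m`, `er ∣ g - x.g`, so `m g ≡ x.m g + x.g m - x.m x.g`, `Z ≡ x.u + x.v m + x.w g`, `Λ ≡ i (m g + k² Z)`: so `x'.u = i (k² x.u - x.m x.g)`, `x'.v = i (x.m + k² x.w)` (coefficient of `g`), `x'.w = -i (x.g + k² x.v)` (coefficient of `-m`).
Products of coprime prime powers: or write (a) as: `e1 es k` divides `e2 es n * d'` etc. -/
def SX8_stmt : Prop :=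
  ∀ (er es n k : ℕ) (x : Cls), 1 ≤ er → 1 ≤ es → 1 ≤ n → 1 ≤ k → Nat.Coprime n k → Nat.Coprime er es → Nat.Coprime (n * k) er →
    ∃ x' : Cls, ∀ t : Tpl, IsT t → t.1 = (n, k) → InC er es x t → InC er es x' (swp t)

/-- **WA8** (short-medium; from WG8, WT8, SX8, SWP). All tuples.
PROOF. `F = F₁ ∪ F₂`, `F₁` the `t` with `k ≤ n`, `F₂` the others. `swp` maps `F₂` injectively (SWP) to tuples with `k ≤ n`, `Ce` is symmetric (`lam (swp t) = Z`, `dis (swp t) = dis t`); classes: `S' (k, n)` = the image of `S (n, k)` under the map of SX8 (choice), at most `s` elements (and the empty set where the hypotheses of SX8 fail; `n, k ≥ 1` coprime for tuples).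
So `UBd .. C W (k ≤ n)` implies `UBd .. (2 C) W True` (`0 ≤ W`, `0 ≤ s`). -/
def WA8_stmt : Prop :=
  ∀ κ A : ℝ, 0 < κ → κ ≤ 1 → 1 ≤ A → ∃ C N₀ : ℝ, 1 ≤ C ∧ 1 ≤ N₀ ∧ ∀ N Y : ℝ, N₀ ≤ N → N ^ (0.49 : ℝ) ≤ Y → Y ^ 2 ≤ A * N →
    ∀ d er es y : ℕ, Md d er es y →
    ((d : ℝ) ≤ N ^ (0.19 : ℝ) → UBd κ N Y d er es y C (Y ^ 2 / ((er : ℝ) ^ 4 * (es : ℝ) ^ 3)) (fun _ => True)) ∧
    UBd κ N Y d er es y C (Real.log N ^ 2 * (Y ^ 2 / ((er : ℝ) ^ 4 * (es : ℝ) ^ 3) +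
      Y ^ 7 / (N ^ 2 * (d : ℝ) ^ 4) / ((er : ℝ) ^ 2 * (es : ℝ) ^ 2))) (fun _ => True)

/-! ## Block C8: tuples with a discriminant divisible by `d²`, all `d` -/

/-- the second Euler factor -/
noncomputable def hh (K : ℝ) (p a : ℕ) : ℝ := K * (a + 1) * (p : ℝ) ^ (if 3 ≤ a then a / 2 else 0)

/-- **TN8** (medium; as TNB, Pool/Agent/helper85/T6/TNB.lean). The second local inequality.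
PROOF. Termwise for `p ∈ d.primeFactors`, `a ≥ 1`. `p ∈ Sr` (`a ≤ 2`): `3 p²/p² = 3`. `p ∈ Sy`: `C · 2 (a + 1) p^(2a + a/2)/(p · p^(2a)) = 2 C (a + 1) p^(a/2)/p`, and `p^(a/2)/p ≤ 1` for `a ≤ 3`, `≤ p^(a/2)` always. Not in `Sr ∪ Sy`, `a ≥ 3`: `2 (a + 1) p^(a/2)`; `p = 2`, `a ≤ 2`: `2 (a + 1) 2^(a/2) ≤ 4 (a + 1)`; otherwise `12 p/p² ≤ 12`. -/
def TN8_stmt : Prop := ∀ (C : ℝ) (d : ℕ) (Sr Sy : Finset ℕ), 1 ≤ C → 1 ≤ d →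
  Sr ⊆ d.primeFactors → Sy ⊆ d.primeFactors → Disjoint Sr Sy → (∀ p ∈ Sr, p ≠ 2 ∧ d.factorization p ≤ 2) →
  C ^ Sy.card * ((∏ p ∈ d.primeFactors, (mc d Sr Sy p : ℝ)) / (∏ p ∈ Sy, (p : ℝ))) /
      ((∏ p ∈ d.primeFactors, (mr Sr p : ℝ)) ^ 2 * (∏ p ∈ d.primeFactors, (ms d Sr Sy p : ℝ)) ^ 2) ≤
    ∏ p ∈ d.primeFactors, hh (12 * C) p (d.factorization p)

/-- **TG8** (medium; from TGM, TCH, TSP, TNA, TNB, TN8; model: the file TD1R.lean of T6). Glueing, for an abstract bound.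
PROOF. As TD1R: `LA, LA', LB` from TCH, every `t ∈ F` has a type `(Sr, Sy)` (TSP, `4^ω(d)` types); for one type `er = ∏ mr`, `es = ∏ ms`, `y = ∏ p ∈ Sy, p` are admissible (`Md`: TNA, `er es ∣ d` gives `er es ≤ d`), `S q` = the glued classes (TGM), `s = ∏ mc`. The hypothesis bounds the fibre by `C^(#Sy + 1) (s/y) (a/(er⁴ es³) + b/(er² es²))`,
TNB and TN8: `≤ C (a ∏ gg (12 C) + b ∏ hh (12 C))`; sum over the types: `4^ω ∏ gg (12 C) = ∏ gg (48 C)`, the same for `hh`. -/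
def TG8_stmt : Prop := LOCA_stmt → LOCB_stmt →
  ∀ (κ N Y C a b : ℝ) (d : ℕ), 1 ≤ C → 0 ≤ a → 0 ≤ b → 1 ≤ d →
    (∀ er es y : ℕ, Md d er es y → UBd κ N Y d er es y C
      (a / ((er : ℝ) ^ 4 * (es : ℝ) ^ 3) + b / ((er : ℝ) ^ 2 * (es : ℝ) ^ 2)) (fun _ => True)) →
    ∀ F : Finset Tpl, (∀ t ∈ F, Ce κ (N * (d : ℝ) ^ 2) Y t ∧ (d : ℤ) ^ 2 ∣ dis t) →
    (F.card : ℝ) ≤ C * (a * ∏ p ∈ d.primeFactors, gg (48 * C) p (d.factorization p) +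
      b * ∏ p ∈ d.primeFactors, hh (48 * C) p (d.factorization p))

/-- **TE8** (medium; from TEA; model: Pool/Agent/helper66/T6/TEU.lean). Two convergent sums.
PROOF. `d^x = ∏ p^(x a)` over `p^a ∥ d`. TEA with `G p a = p^(a/8) gg K p a`: `p^(a/8)/p^(max 2 ((a+1)/2)) ≤ p^(-3/2) (p^(-3/8))^(a - 4)` for `a ≥ 4` and `≤ p^(-13/8)` for `a ≤ 3`, so `∑_a ≤ C₀ p^(-3/2)`. TEA with `G p a = p^(-11a/10) hh K p a`: `a = 1, 2`: `K (a+1) p^(-11a/10)`; `a ≥ 3`: `≤ K (a+1) p^(-6a/10) ≤ K (a+1) p^(-9/5) (2^(-6/10))^(a-3)`: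
`∑_a ≤ C₀ p^(-11/10)`. `∏_p (1 + C₀ p^(-x)) ≤ exp (C₀ ∑ n^(-x))`, convergent for `x = 3/2, 11/10`. -/
def TE8_stmt : Prop := ∀ K : ℝ, 1 ≤ K → ∃ C : ℝ, 1 ≤ C ∧ ∀ D : ℕ,
  ∑ d ∈ Icc 1 D, (d : ℝ) ^ (1 / 8 : ℝ) * ∏ p ∈ d.primeFactors, gg K p (d.factorization p) ≤ C ∧
  ∑ d ∈ Icc 1 D, (d : ℝ) ^ (-(11 / 10) : ℝ) * ∏ p ∈ d.primeFactors, hh K p (d.factorization p) ≤ C

/-- **TF8** (medium; from WA8, TG8, TE8, LOCA, LOCB, SZ). All tuples of all conductors.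
PROOF. `C₁, N₁` from WA8, `C₂` from TE8 with `K = 48 C₁`. A tuple with `Ce κ (N d²) Y` has `1 ≤ n`, `n d √(N/2) ≤ 2 Y √Y` (SZ), so `d ≤ 3 Y √Y ≤ N²` (`N` large): `F` is the union of its fibres over `d ∈ Icc 1 D`, `D = ⌊N²⌋₊`. `d ≤ N^0.19`: TG8 with `a = Y²`, `b = 0`: `C₁ Y² ∏ gg`; the sum is at most `C₁ C₂ Y²`. `d > N^0.19`: TG8 with `a = (log N)² Y²`,
`b = (log N)² Y⁷/(N² d⁴)`: `∏ gg ≤ N^(-0.19/8) d^(1/8) ∏ gg`, `d^(-4) ∏ hh ≤ N^(-0.19 · 2.9) d^(-11/10) ∏ hh`, `Y⁷/N² ≤ A³ Y² N^(1/2)`, `0.19 · 2.9 = 0.551`: the sum is at most `C₁ C₂ (log N)² Y² (N^(-0.023) + A³ N^(-0.051)) ≤ Y²` for `N` large. -/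
def TF8_stmt : Prop :=
  ∀ κ A : ℝ, 0 < κ → κ ≤ 1 → 1 ≤ A → ∃ C N₀ : ℝ, 1 ≤ C ∧ 1 ≤ N₀ ∧ ∀ N Y : ℝ, N₀ ≤ N → N ^ (0.49 : ℝ) ≤ Y → Y ^ 2 ≤ A * N →
    ∀ F : Finset (ℕ × Tpl), (∀ x ∈ F, 1 ≤ x.1 ∧ Ce κ (N * (x.1 : ℝ) ^ 2) Y x.2 ∧ (x.1 : ℤ) ^ 2 ∣ dis x.2) →
    (F.card : ℝ) ≤ C * Y ^ 2

/-! ## Block U8: from classes to tuples -/

section
variable {K : Type} [Field K] [NumberField K]

/-- the pairs `(a, α)` with `N(a)`, `lamI a α` in `[κ Y, Y]` which have a tuple -/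
def GP8 (Q : QF K) (κ Y : ℝ) : Set (Ideal (𝓞 K) × 𝓞 K) :=
  {x | κ * Y ≤ (Ideal.absNorm x.1 : ℝ) ∧ (Ideal.absNorm x.1 : ℝ) ≤ Y ∧ κ * Y ≤ (lamI x.1 x.2 : ℝ) ∧ (lamI x.1 x.2 : ℝ) ≤ Y ∧
    ∃ γ, Adm Q x.1 x.2 γ}

/-- the ideals of order 5, norm in `[κ Y, Y]`, whose square contains a small rational integer -/
def RI8 (K : Type) [Field K] [NumberField K] (κ Y : ℝ) : Set (Ideal (𝓞 K)) :=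
  {a | a ≠ ⊥ ∧ Prim a ∧ (a ^ 5).IsPrincipal ∧ ¬ a.IsPrincipal ∧ κ * Y ≤ (Ideal.absNorm a : ℝ) ∧ (Ideal.absNorm a : ℝ) ≤ Y ∧
    ∃ x : ℤ, x ≠ 0 ∧ (x : 𝓞 K) ∈ a ^ 2 ∧ (x : ℝ) ^ 2 ≤ (Ideal.absNorm a : ℝ) ^ 2 * Y}

/-- the classes of order 5 with `μ(c)`, `μ(c²)` in `[κ Y, Y]` -/
def NN8 (K : Type) [Field K] [NumberField K] (κ Y : ℝ) : Set (ClassGroup (𝓞 K)) :=
  {c | c ^ 5 = 1 ∧ c ≠ 1 ∧ κ * Y ≤ (mu c : ℝ) ∧ (mu c : ℝ) ≤ Y ∧ κ * Y ≤ (mu (c ^ 2) : ℝ) ∧ (mu (c ^ 2) : ℝ) ≤ Y}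

/-- the classes with `μ(c) ≤ Y`, and `μ(c)`, `μ(c²)` differ by a factor at most `A` -/
def NE8 (K : Type) [Field K] [NumberField K] (A Y : ℝ) : Set (ClassGroup (𝓞 K)) :=
  {c | c ∈ CLS K Y ∧ (mu (c ^ 2) : ℝ) ≤ A * (mu c : ℝ) ∧ (mu c : ℝ) ≤ A * (mu (c ^ 2) : ℝ)}

end

noncomputable def fG8 (κ Y : ℝ) : ∀ D : ℤ, Fld D → ℝ := fun _ E => ((GP8 E.Q κ Y).ncard : ℝ)
noncomputable def fR8 (κ Y : ℝ) : ∀ D : ℤ, Fld D → ℝ := fun _ E => ((RI8 E.K κ Y).ncard : ℝ)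
noncomputable def fN8 (κ Y : ℝ) : ∀ D : ℤ, Fld D → ℝ := fun _ E => ((NN8 E.K κ Y).ncard : ℝ)
noncomputable def fE8 (A Y : ℝ) : ∀ D : ℤ, Fld D → ℝ := fun _ E => ((NE8 E.K A Y).ncard : ℝ)

/-- **AC8** (medium; from `MU7_stmt` (= HMU of T6); the T5 library). One field: from the classes to the pairs.
PROOF. `c ∈ NN8`, `a = f c` (`ZL_map`), `Z = N(a) = μ(c)`, `α ∈ a²`, `α ≠ 0`, `v₁ α ^ 2 = Z² μ(c²)` minimal among the nonzero elements of `a²`; replacing `α` by `-α` we may assume `0 ≤ Q.Y α`. `a⁵ = (θ)`, `γ θ = Z α²` (`lga`). Content one (`Adm.pL`): if `(q) a² ∣ (α)` then `α = q β`, `β ∈ a²`, `v₁ β = v₁ α/q < v₁ α`, impossible.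
`lamI a α = μ(c²)` (`AllL.aLAW`, first part, and `lemb`: `nn α = v₁ α ^ 2 = Z² lamI a α`). CASE 1: `Q.Y α ≠ 0`, `Q.Y γ ≠ 0`: `(a, α) ∈ GP8`; `c ↦ (a, α)` is injective. CASE 2: `Q.Y α = 0`: `α = x ∈ ℤ` (`Q.Y_eq_zero_iff`), `x² = v₁ α ^ 2 = Z² μ(c²) ≤ Z² Y`: `a ∈ RI8`; `c ↦ a` is injective.
CASE 3: `Q.Y γ = 0`: `(α) = a² b`, `N(b) = lamI a α = μ(c²) ∈ [κ Y, Y]`, `b` primitive (content one), the class of `b` is `(c²)⁻¹` (`SC1_cl` is multiplicative), so `b⁵` is principal and `b` is not (`c^2 ≠ 1`: `ZL_sq`); `lfu` (`F.L`, or directly `(γ) = bar a · b²`: `(γ) a⁵ = (Z α²) = a bar a a⁴ b²`) gives `γ ∈ b²`, `γ = x ∈ ℤ`, `x ≠ 0`,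
`x² = v₁ γ ^ 2 = N(a) N(b)² ≤ N(b)² Y`: `b ∈ RI8`; `c ↦ b` is injective (the class of `b` is `c⁻²`; `ZL_sq`). All sets are finite (`RI8 ⊆` ideals of norm `≤ Y`: `SFA`/`Ideal.finite_setOf_absNorm_le`; `GP8`: `AL` finite, see `HINJ_fin`). -/
def AC8_stmt : Prop := ∀ (K : Type) [Field K] [NumberField K] (Q : QF K), Module.finrank ℚ K = 2 → Q.D < -4 → ∀ κ Y : ℝ, 0 < κ → 0 < Y →
  (GP8 Q κ Y).Finite ∧ (RI8 K κ Y).Finite ∧ (NN8 K κ Y).ncard ≤ (GP8 Q κ Y).ncard + 2 * (RI8 K κ Y).ncard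

/-- **RA8** (medium-long, algebra). The ideals of `RI8` give solutions of `R (4 S⁵) = R² X² - D y²` with `R ∣ D`, `R S = N(a)`, `R ≥ κ √Y`.
PROOF. `Z = N(a)`, `a⁵ = (θ)`, `Y θ ≠ 0` (`AllL.aLYT`). Let `R ≥ 1` be maximal with `(R) ∣ a²`, `a² = (R) J`: no prime `(q)` divides `J`, so every integer in `J` is divisible by `N(J) = Z²/R²` (for a primitive ideal `J ∩ ℤ = N(J) ℤ`; for instance `bar J J = (N J)`, and `x ∈ J` gives `(x) ⊆ J`, `(x) = J J'`, `(x) = bar J bar J'`; or via the basis).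
(1) `x ∈ a²` rational: `x = R j`, `j ∈ J ∩ ℤ`, so `|x| ≥ R Z²/R²` and `R ≥ Z²/|x| ≥ Z/√Y ≥ κ √Y`. (2) A prime `p ∣ R`: `(p) ∣ a²`, `(p) ∤ a`; `p` is not inert (then `(p)` is prime and divides `a`) and not split (both prime ideals over `p` would divide `a`, so `(p) ∣ a`): `(p) = P²`, `P = bar P`, `P ∣ a`, `P² ∤ a`, `p ∣ D`; the power of `P` in `a²` is `2`, so `p ∥ R`.
So `R` is squarefree, `R ∣ D`, `R ∣ Z` (`P ∣ a` gives `p ∣ Z`); `S = Z/R`. (3) `a⁵ = (R²) J² a`, so `θ = R² θ'`, `(θ') = J² a`. `θ'` is primitive: let a prime `p ∣ θ'`, so `(p R²) ∣ a⁵`; the primes over `p` divide `a`; `p` inert or split: `(p) ∣ a`, impossible; `(p) = P²`: `P ∥ a`, so the power of `P` in `a⁵` is 5, and `(p) ∣ a²` gives `p ∣ R`, so the power of `P` in `(p R²)` is at least 6.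
(4) `θ' + cj θ' = X' ∈ ℤ`; for `p ∣ R`: `θ' ∈ a ⊆ P`, `cj θ' ∈ bar P = P`, so `X' ∈ P ∩ ℤ = p ℤ`: `R ∣ X'` (squarefree), `X' = R X`. `y = Q.Y θ' ≠ 0`. `4 N(θ') = X'² - D y²` and `N(θ') = Z⁵/R⁴ = R S⁵`. (5) a prime `p` dividing `y` and `R S` divides `N(θ')`, so `p ∣ θ'` (`Q.dvd_of_dvd`), impossible: `gcd (y, R S) = 1`.
(6) `(R, X, y)` determines `θ' = ((R X) + y √D)/2` (`Q.exists_re`/`Q.hspan`: `θ' = x + y ω`, `X' = 2 x + t y`), `θ = R² θ'`, `a⁵`, `a` (`pow_inj`). -/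
def RA8_stmt : Prop := ∀ (K : Type) [Field K] [NumberField K] (Q : QF K), Module.finrank ℚ K = 2 → Q.D < -4 → ∀ κ Y : ℝ, 0 < κ → 1 ≤ Y →
  ∃ f : Ideal (𝓞 K) → ℕ × ℕ × ℤ × ℤ, Set.InjOn f (RI8 K κ Y) ∧ ∀ a ∈ RI8 K κ Y,
    1 ≤ (f a).1 ∧ 1 ≤ (f a).2.1 ∧ (f a).1 * (f a).2.1 = Ideal.absNorm a ∧ κ * √Y ≤ (f a).1 ∧ (f a).2.2.2 ≠ 0 ∧
    IsCoprime (f a).2.2.2 (((f a).1 : ℤ) * (f a).2.1) ∧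
    ((f a).1 : ℤ) * (4 * ((f a).2.1 : ℤ) ^ 5) = ((f a).1 : ℤ) ^ 2 * (f a).2.2.1 ^ 2 - Q.D * (f a).2.2.2 ^ 2

/-- **RC8** (medium, elementary). The number of these solutions is at most `N^0.8`.
PROOF. Elements `(D, R, S, X, y)`; `D` is determined by the others. Let `R, S, y` be given. `y²` divides `R (4 S⁵ - R X²) = -D y²`, so `y² ∣ 4 S⁵ - R X²`; `R² X² ∈ [4 R S⁵ - N y², 4 R S⁵ - N y²/2)`, so `|X|` lies in an interval of length at most `√N |y|/R` (`√a - √b ≤ √(a - b)`).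
NUMBER OF `X` with `y² ∣ 4 S⁵ - R X²` in an interval of length `I`: let `X₀` be one; for another one `y² ∣ R (X - X₀)(X + X₀)`, `gcd (R, y) = 1`, so `y² = u w` with `u = gcd (y², X - X₀)`, `w ∣ X + X₀`. For given `u` two such `X` differ by a multiple of `u` and of `w`, so of `u w/gcd (u, w)`. A prime `p` dividing `u` and `w` divides `2 X₀`; an odd `p` would divide `X₀`, `y`, `4 S⁵`, `S`, impossible.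
The power of `2`: if `y` is even then `X₀ = 2 z`, `(y/2)² · 4 ∣ ..`, `y²/4 ∣ S⁵ - R z²`, `S`, `R` odd; if `4 ∣ y` then `z` is odd and `4 ∤ 2 X₀/..`: in all cases `gcd (u, w) ∣ 4` (if `8 ∣ u`, `8 ∣ w` then `4 ∣ X₀`, `z` even and `4 ∣ y`, contradiction; so `gcd (u, w)` divides 4). So for given `u` at most `1 + 4 I/y²` values; in all at most `2 τ(y²) (1 + 4 √N/(R |y|)) ≤ C N^0.01 (1 + √N/(R |y|))` (both signs).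
SUM: `N y²/2 ≤ 4 R S⁵`, `S ≤ Y/R ≤ √Y/κ`, `R S ≤ Y`: `y² ≤ 8 Y S⁴/N ≤ 8 Y³/(κ⁴ N)`, `|y| ≤ H := 3 Y √Y/(κ² √N) ≤ C N^(1/4)`. `∑_{R, S} ∑_y √N/(R |y|) ≤ √N (2 + 2 log H) ∑_R Y/R² ≤ C √N log N · Y/(κ √Y) ≤ C N^0.76` (`R ≥ κ √Y`), and `∑_{R, S} 2 H ≤ Y (1 + log Y) 2 H ≤ C N^0.76`. -/
def RC8_stmt : Prop := ∀ κ A : ℝ, 0 < κ → κ ≤ 1 → 1 ≤ A → ∃ C : ℝ, 1 ≤ C ∧ ∀ N Y : ℝ, 1 ≤ N → 1 ≤ Y → Y ^ 2 ≤ A * N →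
  ∀ G : Finset (ℤ × ℕ × ℕ × ℤ × ℤ), (∀ x ∈ G, N / 2 < -(x.1 : ℝ) ∧ -(x.1 : ℝ) ≤ N ∧ 1 ≤ x.2.1 ∧ 1 ≤ x.2.2.1 ∧
    (x.2.1 : ℝ) * x.2.2.1 ≤ Y ∧ κ * √Y ≤ x.2.1 ∧ x.2.2.2.2 ≠ 0 ∧ IsCoprime x.2.2.2.2 ((x.2.1 : ℤ) * x.2.2.1) ∧
    (x.2.1 : ℤ) * (4 * (x.2.2.1 : ℤ) ^ 5) = (x.2.1 : ℤ) ^ 2 * x.2.2.2.1 ^ 2 - x.1 * x.2.2.2.2 ^ 2) →
  (G.card : ℝ) ≤ C * N ^ (0.8 : ℝ)

/-- **RN8** (short-medium; from RA8, RC8). The sum over `D`.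
PROOF. `D ∈ DN N`, chosen field `E` (`ZL_fld`), `E.Q.D = D < -4`: `G` = the set of all `(D, f_D a)`, `a ∈ RI8 E.K κ Y` (finite: contained in the ideals of norm at most `Y`); its cardinality is the sum. -/
def RN8_stmt : Prop := ∀ κ A : ℝ, 0 < κ → κ ≤ 1 → 1 ≤ A → ∃ C : ℝ, 1 ≤ C ∧ ∀ N Y : ℝ, 10 ≤ N → 1 ≤ Y → Y ^ 2 ≤ A * N →
  TD7 (fR8 κ Y) N ≤ C * N ^ (0.8 : ℝ)

/-- **HJ8** (medium; from ALG, TF8; model: Pool/Agent/helper92/T6/HINJ.lean). The injection into the tuples.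
PROOF. As HINJ, with all conductors: for `D ∈ DN N` and the map `φ_D` of ALG, `x = (a, α) ∈ GP8`, `γ` from the definition, `g = gd Q α γ ≥ 1`, `t = φ_D a α`, `TupOf Q a α γ g t`: `Z = N(a)`, `lam t = lamI a α`, `dis t = D g²`, so `Ce κ (N g²) Y t` (`N/2 < -D ≤ N`). The map `(D, x) ↦ (g, t)` is injective. TF8. -/
def HJ8_stmt : Prop := ∀ κ A : ℝ, 0 < κ → κ ≤ 1 → 1 ≤ A → ∃ C N₀ : ℝ, 1 ≤ C ∧ 1 ≤ N₀ ∧ ∀ N Y : ℝ, N₀ ≤ N →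
  N ^ (0.49 : ℝ) ≤ Y → Y ^ 2 ≤ A * N → TD7 (fG8 κ Y) N ≤ C * Y ^ 2

/-- **HI8** (short; from AC8, RN8, HJ8). The new bound.
PROOF. AC8 for every `D ∈ DN N` (`ZL_fld`; `D < -4` as `N ≥ 10`), sum over `D`; `N^0.8 ≤ Y²` as `Y ≥ N^0.49`, `N ≥ 1`. -/
def HI8_stmt : Prop := ∀ κ A : ℝ, 0 < κ → κ ≤ 1 → 1 ≤ A → ∃ C N₀ : ℝ, 1 ≤ C ∧ 1 ≤ N₀ ∧ ∀ N Y : ℝ, N₀ ≤ N →
  N ^ (0.49 : ℝ) ≤ Y → Y ^ 2 ≤ A * N → TD7 (fN8 κ Y) N ≤ C * Y ^ 2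

/-! ## Block F8: the final sums -/

/-- **NR8** (medium; from HI8, ZNB, EXC of T5, ZTC, `MU7_stmt`; model: Pool/Agent/helper88/T7/ZSW.lean). The near classes are few.
PROOF. `δ₀, C₁` from ZNB, `δ = min (δ₀, 1/100)`. `b` with `A ≤ 2^b`. CASE `Y ≥ N^(1/2 - δ)`: `l ∈ (0, 1]` with `C₁ (b + 1) l ≤ ε/2`. `NE8 A Y ⊆ NR7 (2^b) (l Y) ∪ NN8 κ' Y'`, `Y' = A Y`, `κ' = l/A²`: if `μ(c) ≤ l Y` the first (`ZL_CLS`), otherwise `μ(c²) ≥ μ(c)/A > l Y/A = κ' Y'`, `μ(c) > l Y ≥ κ' Y'`, and both are `≤ A Y = Y'`.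
First: ZNB at `l Y` (apply it with `2 δ` resp. `δ₀` larger: `l Y ≥ N^(1/2 - δ₀)` needs `l Y ≥ l N^(1/2 - δ)`; so use `δ = min (δ₀/2, 1/200)` and `N` large): `≤ C₁ (b + 1) l Y √N ≤ (ε/2) Y √N`. Second: HI8 with `κ'`, `A' = A²` (`Y'² ≤ A² κ² N ≤ A² N`, `Y' ≥ Y ≥ N^0.49`): `≤ C₂ A² Y² ≤ C₂ A² κ Y √N ≤ (ε/2) Y √N` for `κ` small.
CASE `N^(2/5) ≤ Y < N^(1/2 - δ)`: as in ZSW: for `c ∈ NE8 A Y`: `μ(c²) ≤ A μ(c) ≤ A Y ≤ N^(1/2 - δ/200)` for `N` large; `#NE8 A Y ≤ ∑_{j < j₀} #EX Q (Y/2^j) (N^(1/2 - δ/200)) + #CLS (Y/2^j₀)`, EXC and ZTC. -/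
def NR8_stmt : Prop := ∀ ε A : ℝ, 0 < ε → 1 ≤ A → ∃ κ N₀ : ℝ, 0 < κ ∧ ∀ N Y : ℝ, N₀ ≤ N →
  N ^ (2 / 5 : ℝ) ≤ Y → Y ≤ κ * √N → TD7 (fE8 A Y) N ≤ ε * (Y * √N)

/-- **FN8** (medium; from ZFN, NR8, ZDY, ZTT; model: Pool/Agent/helper4/T7/ZFN.lean). THE CLEAN ASYMPTOTIC.
PROOF. `A = A₀` from ZFN with `ε/2`, `κ₁, N₁`; NR8 with `ε₁ = ε/16` and `A`: `κ₂, N₂`; `C` from ZTT (`TT7 (fC Y) (N/2^i)`), `r = 1/√2`, `i₀` with `C r^i₀ ≤ ε/4`; `κ = min (κ₁, min (κ₂, 1) r^i₀)`. For each field `CLS K Y = SP7 K A Y ∪ NE8 K A Y`, so `#SP7 ≤ #CLS ≤ #SP7 + #NE8`.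
So `0 ≤ TT7 (fC Y) N - TT7 (fS A Y) N ≤ TT7 (fE8 A Y) N`, and ZDY: `TT7 (fE8 A Y) N = ∑_{i < i₀} TD7 (fE8 A Y) (N/2^i) + TT7 (fE8 A Y) (N/2^i₀) ≤ ∑ ε₁ r^i Y √N + C r^i₀ Y √N ≤ (4 ε₁ + ε/4) Y √N` (`√(N/2^i) = r^i √N`, `(N/2^i)^(2/5) ≤ Y ≤ κ₂ √(N/2^i)`, `Y ≤ √(N/2^i₀)`; `NE8 ⊆ CLS`). -/
def FN8_stmt : Prop := ∀ ε : ℝ, 0 < ε → ∃ κ N₀ : ℝ, 0 < κ ∧ ∀ N Y : ℝ, N₀ ≤ N →
  N ^ (2 / 5 : ℝ) ≤ Y → Y ≤ κ * √N → |TT7 (fC Y) N - 36 / Real.pi ^ 3 * (Y * √N)| ≤ ε * (Y * √N)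

end Pool.Agent.T8
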